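import Pool.Agent.EDQ18.Ex

set_option autoImplicit false

/-!
# Existentially definable sets of points are closed under sums
-/

namespace Pool.Agent.EDQ18

open MvPolynomial WeierstrassCurve.Affine

open scoped Pointwise

variable (W : WeierstrassCurve ℚ)

/-- The affine point `(x, y)` belongs to `A`. -/
def Pt (A : Set W.toAffine.Point) (x y : ℚ) : Prop :=
  ∃ h : W.toAffine.Nonsingular x y, Point.some _ _ h ∈ A

/-- The coordinates of the affine points of `A`. -/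
def aff (A : Set W.toAffine.Point) : Set (Fin 2 → ℚ) :=
  {v | Pt W A (v 0) (v 1)}

/-- The chord through two points with different first coordinates. -/
def Rel1 (x₁ y₁ x₂ y₂ l x y : ℚ) : Prop :=
  x₁ ≠ x₂ ∧ l * (x₁ - x₂) = y₁ - y₂ ∧ x = W.toAffine.addX x₁ x₂ l ∧ y = W.toAffine.addY x₁ x₂ y₁ l

/-- The tangent. -/
def Rel2 (x₁ y₁ x₂ y₂ l x y : ℚ) : Prop :=
  x₁ = x₂ ∧ y₁ ≠ W.toAffine.negY x₂ y₂ ∧
    l * (y₁ - W.toAffine.negY x₁ y₁) = 3 * x₁ ^ 2 + 2 * W.a₂ * x₁ + W.a₄ - W.a₁ * y₁ ∧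
    x = W.toAffine.addX x₁ x₂ l ∧ y = W.toAffine.addY x₁ x₂ y₁ l

theorem add_iff {x₁ y₁ x₂ y₂ : ℚ} (h₁ : W.toAffine.Nonsingular x₁ y₁)
    (h₂ : W.toAffine.Nonsingular x₂ y₂) (x y : ℚ) :
    (∃ h : W.toAffine.Nonsingular x y, Point.some _ _ h₁ + Point.some _ _ h₂ =
      Point.some _ _ h) ↔
      ∃ l : ℚ, Rel1 W x₁ y₁ x₂ y₂ l x y ∨ Rel2 W x₁ y₁ x₂ y₂ l x y := by
  by_cases hxy : x₁ = x₂ ∧ y₁ = W.toAffine.negY x₂ y₂
  · constructor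
    · rintro ⟨h, he⟩
      rw [Point.add_of_Y_eq hxy.1 hxy.2] at he
      exact absurd he.symm (Point.some_ne_zero h)
    · rintro ⟨l, h | h⟩
      · exact absurd hxy.1 h.1
      · exact absurd hxy.2 h.2.1
  · have key : ∀ l : ℚ, (Rel1 W x₁ y₁ x₂ y₂ l x y ∨ Rel2 W x₁ y₁ x₂ y₂ l x y) ↔
        l = W.toAffine.slope x₁ x₂ y₁ y₂ ∧ x = W.toAffine.addX x₁ x₂ l ∧
          y = W.toAffine.addY x₁ x₂ y₁ l := by
      intro l
      by_cases hx : x₁ = x₂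
      · have hy : y₁ ≠ W.toAffine.negY x₂ y₂ := fun h => hxy ⟨hx, h⟩
        have hyy : y₁ = y₂ := Y_eq_of_Y_ne h₁.1 h₂.1 hx hy
        have hne : y₁ - W.toAffine.negY x₁ y₁ ≠ 0 := by
          rw [sub_ne_zero]
          rw [hx, hyy]
          rw [hyy] at hy
          exact hy
        rw [slope_of_Y_ne hx hy, eq_div_iff hne]
        constructor
        · rintro (h | h)
          · exact absurd hx h.1
          · exact ⟨h.2.2.1, h.2.2.2.1, h.2.2.2.2⟩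
        · rintro ⟨h1, h2, h3⟩
          exact Or.inr ⟨hx, hy, h1, h2, h3⟩
      · have hne : x₁ - x₂ ≠ 0 := sub_ne_zero.2 hx
        rw [slope_of_X_ne hx, eq_div_iff hne]
        constructor
        · rintro (h | h)
          · exact ⟨h.2.1, h.2.2.1, h.2.2.2⟩
          · exact absurd h.1 hx
        · rintro ⟨h1, h2, h3⟩
          exact Or.inl ⟨hx, h1, h2, h3⟩
    simp only [key]
    rw [Point.add_some hxy]
    constructor
    · rintro ⟨h, he⟩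
      rw [Point.some.injEq] at he
      exact ⟨_, rfl, he.1.symm, he.2.symm⟩
    · rintro ⟨l, rfl, hx, hy⟩
      have h := nonsingular_add h₁ h₂ hxy
      rw [← hx, ← hy] at h
      refine ⟨h, ?_⟩
      rw [Point.some.injEq]
      exact ⟨hx.symm, hy.symm⟩

theorem ex_rel1 {A B : Set W.toAffine.Point} (hA : Ex (aff W A)) (hB : Ex (aff W B)) :
    Ex {u : Fin 2 ⊕ Fin 5 → ℚ | (Pt W A (u (Sum.inr 0)) (u (Sum.inr 1)) ∧
      Pt W B (u (Sum.inr 2)) (u (Sum.inr 3))) ∧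
      Rel1 W (u (Sum.inr 0)) (u (Sum.inr 1)) (u (Sum.inr 2)) (u (Sum.inr 3)) (u (Sum.inr 4))
        (u (Sum.inl 0)) (u (Sum.inl 1))} := by
  have h := ((hA.subst ![X (Sum.inr 0), X (Sum.inr 1)]).inter
    (hB.subst ![X (Sum.inr 2), X (Sum.inr 3)])).inter
    ((Ex.ne (X (Sum.inr 0) - X (Sum.inr 2) : MvPolynomial (Fin 2 ⊕ Fin 5) ℚ)).inter
    ((Ex.poly (X (Sum.inr 4) * (X (Sum.inr 0) - X (Sum.inr 2)) - (X (Sum.inr 1) - X (Sum.inr 3)) :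
      MvPolynomial (Fin 2 ⊕ Fin 5) ℚ)).inter
    ((Ex.poly (X (Sum.inl 0) - (X (Sum.inr 4) ^ 2 + C W.a₁ * X (Sum.inr 4) - C W.a₂ -
      X (Sum.inr 0) - X (Sum.inr 2)) : MvPolynomial (Fin 2 ⊕ Fin 5) ℚ)).inter
    (Ex.poly (X (Sum.inl 1) - (-(X (Sum.inr 4) * ((X (Sum.inr 4) ^ 2 + C W.a₁ * X (Sum.inr 4) -
      C W.a₂ - X (Sum.inr 0) - X (Sum.inr 2)) - X (Sum.inr 0)) + X (Sum.inr 1)) -
      C W.a₁ * (X (Sum.inr 4) ^ 2 + C W.a₁ * X (Sum.inr 4) - C W.a₂ - X (Sum.inr 0) -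
      X (Sum.inr 2)) - C W.a₃) : MvPolynomial (Fin 2 ⊕ Fin 5) ℚ)))))
  convert h using 1
  ext u
  simp only [Set.mem_ofPred_eq, Set.mem_inter_iff, aff, Rel1, addX, addY, negAddY, negY,
    Matrix.cons_val_zero, Matrix.cons_val_one, map_sub, map_mul, map_add, map_pow, map_neg,
    eval_X, eval_C, sub_eq_zero, ne_eq]

theorem ex_rel2 {A B : Set W.toAffine.Point} (hA : Ex (aff W A)) (hB : Ex (aff W B)) :
    Ex {u : Fin 2 ⊕ Fin 5 → ℚ | (Pt W A (u (Sum.inr 0)) (u (Sum.inr 1)) ∧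
      Pt W B (u (Sum.inr 2)) (u (Sum.inr 3))) ∧
      Rel2 W (u (Sum.inr 0)) (u (Sum.inr 1)) (u (Sum.inr 2)) (u (Sum.inr 3)) (u (Sum.inr 4))
        (u (Sum.inl 0)) (u (Sum.inl 1))} := by
  have h := ((hA.subst ![X (Sum.inr 0), X (Sum.inr 1)]).inter
    (hB.subst ![X (Sum.inr 2), X (Sum.inr 3)])).inter
    ((Ex.poly (X (Sum.inr 0) - X (Sum.inr 2) : MvPolynomial (Fin 2 ⊕ Fin 5) ℚ)).inter
    ((Ex.ne (X (Sum.inr 1) - (-X (Sum.inr 3) - C W.a₁ * X (Sum.inr 2) - C W.a₃) :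
      MvPolynomial (Fin 2 ⊕ Fin 5) ℚ)).inter
    ((Ex.poly (X (Sum.inr 4) * (X (Sum.inr 1) - (-X (Sum.inr 1) - C W.a₁ * X (Sum.inr 0) -
      C W.a₃)) - (3 * X (Sum.inr 0) ^ 2 + 2 * C W.a₂ * X (Sum.inr 0) + C W.a₄ -
      C W.a₁ * X (Sum.inr 1)) : MvPolynomial (Fin 2 ⊕ Fin 5) ℚ)).inter
    ((Ex.poly (X (Sum.inl 0) - (X (Sum.inr 4) ^ 2 + C W.a₁ * X (Sum.inr 4) - C W.a₂ -
      X (Sum.inr 0) - X (Sum.inr 2)) : MvPolynomial (Fin 2 ⊕ Fin 5) ℚ)).inter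
    (Ex.poly (X (Sum.inl 1) - (-(X (Sum.inr 4) * ((X (Sum.inr 4) ^ 2 + C W.a₁ * X (Sum.inr 4) -
      C W.a₂ - X (Sum.inr 0) - X (Sum.inr 2)) - X (Sum.inr 0)) + X (Sum.inr 1)) -
      C W.a₁ * (X (Sum.inr 4) ^ 2 + C W.a₁ * X (Sum.inr 4) - C W.a₂ - X (Sum.inr 0) -
      X (Sum.inr 2)) - C W.a₃) : MvPolynomial (Fin 2 ⊕ Fin 5) ℚ))))))
  convert h using 1
  ext u
  simp only [Set.mem_ofPred_eq, Set.mem_inter_iff, aff, Rel2, addX, addY, negAddY, negY,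
    Matrix.cons_val_zero, Matrix.cons_val_one, map_sub, map_mul, map_add, map_pow, map_neg,
    eval_X, eval_C, sub_eq_zero, ne_eq, map_ofNat]

theorem ex_add {A B : Set W.toAffine.Point} (hA : Ex (aff W A)) (hB : Ex (aff W B)) :
    Ex (aff W (A + B)) := by
  classical
  have hE : ∀ (p : Prop) (S : Set (Fin 2 → ℚ)), Ex S → Ex {v | p ∧ v ∈ S} := by
    intro p S hS
    by_cases hp : p
    · simpa [hp] using hS
    · simpa [hp] using (Ex.empty : Ex (∅ : Set (Fin 2 → ℚ)))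
  have h := (hE ((0 : W.toAffine.Point) ∈ A) _ hB).union
    ((hE ((0 : W.toAffine.Point) ∈ B) _ hA).union
      ((ex_rel1 W hA hB).proj.union (ex_rel2 W hA hB).proj))
  convert h using 1
  ext v
  constructor
  · rintro ⟨hv, a, ha, b, hb, hab⟩
    change a + b = _ at hab
    rcases a with _ | ⟨x₁, y₁, h₁⟩
    · left
      refine ⟨ha, hv, ?_⟩
      rw [← Point.zero_def, zero_add] at hab
      rw [← hab]
      exact hb
    · rcases b with _ | ⟨x₂, y₂, h₂⟩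
      · right; left
        refine ⟨hb, hv, ?_⟩
        rw [← Point.zero_def, add_zero] at hab
        rw [← hab]
        exact ha
      · right; right
        obtain ⟨l, hl⟩ := (add_iff W h₁ h₂ (v 0) (v 1)).1 ⟨hv, hab⟩
        rcases hl with hl | hl
        · left
          exact ⟨![x₁, y₁, x₂, y₂, l], ⟨⟨h₁, ha⟩, ⟨h₂, hb⟩⟩, hl⟩
        · right
          exact ⟨![x₁, y₁, x₂, y₂, l], ⟨⟨h₁, ha⟩, ⟨h₂, hb⟩⟩, hl⟩
  · rintro (⟨h0, hv, hb⟩ | ⟨h0, hv, ha⟩ | ⟨w, ⟨⟨h₁, ha⟩, ⟨h₂, hb⟩⟩, hl⟩ |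
      ⟨w, ⟨⟨h₁, ha⟩, ⟨h₂, hb⟩⟩, hl⟩)
    · exact ⟨hv, 0, h0, _, hb, zero_add _⟩
    · exact ⟨hv, _, ha, 0, h0, add_zero _⟩
    · obtain ⟨h, he⟩ := (add_iff W h₁ h₂ (v 0) (v 1)).2 ⟨_, Or.inl hl⟩
      exact ⟨h, _, ha, _, hb, he⟩
    · obtain ⟨h, he⟩ := (add_iff W h₁ h₂ (v 0) (v 1)).2 ⟨_, Or.inr hl⟩
      exact ⟨h, _, ha, _, hb, he⟩

theorem ex_neg {A : Set W.toAffine.Point} (hA : Ex (aff W A)) : Ex (aff W (-A)) := by
  have h := hA.subst (![X 0, -X 1 - C W.a₁ * X 0 - C W.a₃] : Fin 2 → MvPolynomial (Fin 2) ℚ)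
  convert h using 1
  ext v
  have e : (fun i => eval v ((![X 0, -X 1 - C W.a₁ * X 0 - C W.a₃] :
      Fin 2 → MvPolynomial (Fin 2) ℚ) i)) ∈ aff W A ↔
      Pt W A (v 0) (W.toAffine.negY (v 0) (v 1)) := by
    simp only [aff, Set.mem_ofPred_eq, negY, Matrix.cons_val_zero, Matrix.cons_val_one, map_sub,
      map_mul, map_neg, eval_X, eval_C]
  rw [Set.mem_ofPred_eq, e]
  constructor
  · rintro ⟨hv, hm⟩
    rw [Set.mem_neg, Point.neg_some] at hm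
    exact ⟨_, hm⟩
  · rintro ⟨hv, hm⟩
    refine ⟨(nonsingular_neg ..).mp hv, ?_⟩
    rw [Set.mem_neg, Point.neg_some]
    exact hm

end Pool.Agent.EDQ18
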