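import Mathlib

set_option autoImplicit false

/-!
# Existentially definable sets over the rational numbers
-/

namespace Pool.Agent.EDQ18

open MvPolynomial

/-- The set `S` is the projection of the zero set of a polynomial with rational coefficients. -/
def Ex {σ : Type} (S : Set (σ → ℚ)) : Prop :=
  ∃ (τ : Type) (_ : Fintype τ) (P : MvPolynomial (σ ⊕ τ) ℚ),
    ∀ v : σ → ℚ, v ∈ S ↔ ∃ z : τ → ℚ, eval (Sum.elim v z) P = 0

theorem Ex.poly {σ : Type} (p : MvPolynomial σ ℚ) : Ex {v : σ → ℚ | eval v p = 0} := by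
  refine ⟨Empty, inferInstance, rename Sum.inl p, fun v => ?_⟩
  constructor
  · intro h
    refine ⟨Empty.elim, ?_⟩
    rw [eval_rename]
    exact h
  · rintro ⟨z, hz⟩
    rw [eval_rename] at hz
    exact hz

theorem Ex.inter {σ : Type} {S T : Set (σ → ℚ)} (hS : Ex S) (hT : Ex T) : Ex (S ∩ T) := by
  obtain ⟨τ, hτ, P, hP⟩ := hS
  obtain ⟨ρ, hρ, Q, hQ⟩ := hT
  refine ⟨τ ⊕ ρ, inferInstance,
    (rename (Sum.elim Sum.inl (fun t => Sum.inr (Sum.inl t))) P) ^ 2 +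
      (rename (Sum.elim Sum.inl (fun t => Sum.inr (Sum.inr t))) Q) ^ 2, fun v => ?_⟩
  have e1 : ∀ z : τ ⊕ ρ → ℚ, eval (Sum.elim v z)
      (rename (Sum.elim Sum.inl (fun t => Sum.inr (Sum.inl t))) P) =
      eval (Sum.elim v (fun t => z (Sum.inl t))) P := by
    intro z
    rw [eval_rename]
    congr 2
    ext i
    rcases i with i | i <;> rfl
  have e2 : ∀ z : τ ⊕ ρ → ℚ, eval (Sum.elim v z)
      (rename (Sum.elim Sum.inl (fun t => Sum.inr (Sum.inr t))) Q) =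
      eval (Sum.elim v (fun t => z (Sum.inr t))) Q := by
    intro z
    rw [eval_rename]
    congr 2
    ext i
    rcases i with i | i <;> rfl
  constructor
  · rintro ⟨h1, h2⟩
    obtain ⟨z, hz⟩ := (hP v).1 h1
    obtain ⟨w, hw⟩ := (hQ v).1 h2
    refine ⟨Sum.elim z w, ?_⟩
    rw [map_add, map_pow, map_pow, e1, e2]
    simp only [Sum.elim_inl, Sum.elim_inr]
    rw [hz, hw]
    norm_num
  · rintro ⟨z, hz⟩
    rw [map_add, map_pow, map_pow, e1, e2] at hz
    have h1 : eval (Sum.elim v (fun t => z (Sum.inl t))) P = 0 := by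
      nlinarith [sq_nonneg (eval (Sum.elim v (fun t => z (Sum.inl t))) P),
        sq_nonneg (eval (Sum.elim v (fun t => z (Sum.inr t))) Q)]
    have h2 : eval (Sum.elim v (fun t => z (Sum.inr t))) Q = 0 := by
      nlinarith [sq_nonneg (eval (Sum.elim v (fun t => z (Sum.inl t))) P),
        sq_nonneg (eval (Sum.elim v (fun t => z (Sum.inr t))) Q)]
    exact ⟨(hP v).2 ⟨_, h1⟩, (hQ v).2 ⟨_, h2⟩⟩

theorem Ex.union {σ : Type} {S T : Set (σ → ℚ)} (hS : Ex S) (hT : Ex T) : Ex (S ∪ T) := by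
  obtain ⟨τ, hτ, P, hP⟩ := hS
  obtain ⟨ρ, hρ, Q, hQ⟩ := hT
  refine ⟨τ ⊕ ρ, inferInstance,
    (rename (Sum.elim Sum.inl (fun t => Sum.inr (Sum.inl t))) P) *
      (rename (Sum.elim Sum.inl (fun t => Sum.inr (Sum.inr t))) Q), fun v => ?_⟩
  have e1 : ∀ z : τ ⊕ ρ → ℚ, eval (Sum.elim v z)
      (rename (Sum.elim Sum.inl (fun t => Sum.inr (Sum.inl t))) P) =
      eval (Sum.elim v (fun t => z (Sum.inl t))) P := by
    intro z
    rw [eval_rename]
    congr 2
    ext i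
    rcases i with i | i <;> rfl
  have e2 : ∀ z : τ ⊕ ρ → ℚ, eval (Sum.elim v z)
      (rename (Sum.elim Sum.inl (fun t => Sum.inr (Sum.inr t))) Q) =
      eval (Sum.elim v (fun t => z (Sum.inr t))) Q := by
    intro z
    rw [eval_rename]
    congr 2
    ext i
    rcases i with i | i <;> rfl
  constructor
  · rintro (h | h)
    · obtain ⟨z, hz⟩ := (hP v).1 h
      refine ⟨Sum.elim z 0, ?_⟩
      rw [map_mul, e1]
      simp only [Sum.elim_inl]
      rw [hz, zero_mul]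
    · obtain ⟨z, hz⟩ := (hQ v).1 h
      refine ⟨Sum.elim 0 z, ?_⟩
      rw [map_mul, e2]
      simp only [Sum.elim_inr]
      rw [hz, mul_zero]
  · rintro ⟨z, hz⟩
    rw [map_mul, e1, e2] at hz
    rcases mul_eq_zero.1 hz with h | h
    · exact Or.inl ((hP v).2 ⟨_, h⟩)
    · exact Or.inr ((hQ v).2 ⟨_, h⟩)

theorem Ex.proj {σ ρ : Type} [Fintype ρ] {S : Set (σ ⊕ ρ → ℚ)} (hS : Ex S) :
    Ex {v : σ → ℚ | ∃ w : ρ → ℚ, Sum.elim v w ∈ S} := by
  obtain ⟨τ, hτ, P, hP⟩ := hS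
  refine ⟨ρ ⊕ τ, inferInstance,
    rename (Sum.elim (Sum.elim Sum.inl (fun t => Sum.inr (Sum.inl t)))
      (fun t => Sum.inr (Sum.inr t))) P, fun v => ?_⟩
  have e1 : ∀ z : ρ ⊕ τ → ℚ, eval (Sum.elim v z)
      (rename (Sum.elim (Sum.elim Sum.inl (fun t => Sum.inr (Sum.inl t)))
        (fun t => Sum.inr (Sum.inr t))) P) =
      eval (Sum.elim (Sum.elim v (fun t => z (Sum.inl t))) (fun t => z (Sum.inr t))) P := by
    intro z
    rw [eval_rename]
    congr 2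
    ext i
    rcases i with (i | i) | i <;> rfl
  constructor
  · rintro ⟨w, hw⟩
    obtain ⟨z, hz⟩ := (hP _).1 hw
    refine ⟨Sum.elim w z, ?_⟩
    rw [e1]
    simpa using hz
  · rintro ⟨z, hz⟩
    rw [e1] at hz
    exact ⟨_, (hP _).2 ⟨_, hz⟩⟩

theorem Ex.subst {σ σ' : Type} {S : Set (σ → ℚ)} (hS : Ex S) (g : σ → MvPolynomial σ' ℚ) :
    Ex {v : σ' → ℚ | (fun i => eval v (g i)) ∈ S} := by
  obtain ⟨τ, hτ, P, hP⟩ := hS
  refine ⟨τ, hτ, bind₁ (Sum.elim (fun i => rename Sum.inl (g i)) (fun t => X (Sum.inr t))) P,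
    fun v => ?_⟩
  have e1 : ∀ z : τ → ℚ, eval (Sum.elim v z)
      (bind₁ (Sum.elim (fun i => rename Sum.inl (g i)) (fun t => X (Sum.inr t))) P) =
      eval (Sum.elim (fun i => eval v (g i)) z) P := by
    intro z
    rw [← aeval_eq_eval, ← aeval_eq_eval, aeval_bind₁]
    congr 2
    ext i
    rcases i with i | i
    · simp only [Sum.elim_inl, aeval_eq_eval]
      rw [eval_rename]
      rfl
    · simp
  constructor
  · intro h
    obtain ⟨z, hz⟩ := (hP _).1 h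
    exact ⟨z, by rw [e1]; exact hz⟩
  · rintro ⟨z, hz⟩
    rw [e1] at hz
    exact (hP _).2 ⟨z, hz⟩

theorem Ex.ne {σ : Type} (p : MvPolynomial σ ℚ) : Ex {v : σ → ℚ | eval v p ≠ 0} := by
  refine ⟨Unit, inferInstance, rename Sum.inl p * X (Sum.inr ()) - 1, fun v => ?_⟩
  have e1 : ∀ z : Unit → ℚ, eval (Sum.elim v z) (rename Sum.inl p * X (Sum.inr ()) - 1) =
      eval v p * z () - 1 := by
    intro z
    rw [map_sub, map_mul, map_one, eval_rename, eval_X]
    rfl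
  constructor
  · intro h
    refine ⟨fun _ => (eval v p)⁻¹, ?_⟩
    rw [e1, mul_inv_cancel₀ h, sub_self]
  · rintro ⟨z, hz⟩ h
    rw [e1, h] at hz
    norm_num at hz

theorem Ex.empty {σ : Type} : Ex (∅ : Set (σ → ℚ)) := by
  have h := Ex.poly (1 : MvPolynomial σ ℚ)
  convert h using 1
  ext v
  simp

theorem Ex.toFin {σ : Type} {S : Set (σ → ℚ)} (hS : Ex S) :
    ∃ (m : ℕ) (P : MvPolynomial (σ ⊕ Fin m) ℚ),
      ∀ v : σ → ℚ, v ∈ S ↔ ∃ z : Fin m → ℚ, eval (Sum.elim v z) P = 0 := by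
  obtain ⟨τ, hτ, P, hP⟩ := hS
  have e := Fintype.equivFin τ
  refine ⟨Fintype.card τ, rename (Sum.map id e) P, fun v => ?_⟩
  rw [hP v]
  have e1 : ∀ z : Fin (Fintype.card τ) → ℚ, eval (Sum.elim v z) (rename (Sum.map id e) P) =
      eval (Sum.elim v (z ∘ e)) P := by
    intro z
    rw [eval_rename]
    congr 2
    ext i
    rcases i with i | i <;> rfl
  constructor
  · rintro ⟨z, hz⟩
    refine ⟨z ∘ e.symm, ?_⟩
    rw [e1]
    have : (z ∘ e.symm) ∘ e = z := by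
      ext t
      simp
    rw [this]
    exact hz
  · rintro ⟨z, hz⟩
    rw [e1] at hz
    exact ⟨_, hz⟩

end Pool.Agent.EDQ18
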