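import Mathlib

set_option autoImplicit false

/-!
# Difference sets which cover a group up to finitely many translates
-/

namespace Pool.Agent.EDQ18

/-- The sums of `k` differences of elements of `A`. -/
def Sums {G : Type} [AddCommGroup G] (A : Set G) : ℕ → Set G
  | 0 => {0}
  | k + 1 => {x | ∃ b ∈ Sums A k, ∃ a₁ ∈ A, ∃ a₂ ∈ A, x = b + (a₁ - a₂)}

/-- The subgroup generated by the differences of elements of `A`. -/
def Gen {G : Type} [AddCommGroup G] (A : Set G) : AddSubgroup G :=
  AddSubgroup.closure {x | ∃ a₁ ∈ A, ∃ a₂ ∈ A, x = a₁ - a₂}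

theorem sums_add {G : Type} [AddCommGroup G] {A : Set G} {m n : ℕ} {x y : G}
    (hx : x ∈ Sums A m) (hy : y ∈ Sums A n) : x + y ∈ Sums A (m + n) := by
  induction n generalizing y with
  | zero =>
    have : y = 0 := hy
    rw [this, add_zero, add_zero]
    exact hx
  | succ n ih =>
    obtain ⟨b, hb, a₁, h₁, a₂, h₂, rfl⟩ := hy
    exact ⟨x + b, ih hb, a₁, h₁, a₂, h₂, by rw [add_assoc]⟩

theorem sums_neg {G : Type} [AddCommGroup G] {A : Set G} {m : ℕ} {x : G}
    (hx : x ∈ Sums A m) : -x ∈ Sums A m := by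
  induction m generalizing x with
  | zero =>
    have : x = 0 := hx
    rw [this, neg_zero]
    exact rfl
  | succ n ih =>
    obtain ⟨b, hb, a₁, h₁, a₂, h₂, rfl⟩ := hx
    exact ⟨-b, ih hb, a₂, h₂, a₁, h₁, by abel⟩

theorem sums_mono {G : Type} [AddCommGroup G] {A : Set G} (hA : A.Nonempty) {m n : ℕ}
    (hmn : m ≤ n) {x : G} (hx : x ∈ Sums A m) : x ∈ Sums A n := by
  obtain ⟨a, ha⟩ := hA
  induction n, hmn using Nat.le_induction with
  | base => exact hx
  | succ n _ ih => exact ⟨x, ih, a, ha, a, ha, by abel⟩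

theorem sums_sub_gen {G : Type} [AddCommGroup G] {A : Set G} {m : ℕ} {x : G}
    (hx : x ∈ Sums A m) : x ∈ Gen A := by
  induction m generalizing x with
  | zero =>
    have : x = 0 := hx
    rw [this]
    exact zero_mem _
  | succ n ih =>
    obtain ⟨b, hb, a₁, h₁, a₂, h₂, rfl⟩ := hx
    exact add_mem (ih hb) (AddSubgroup.subset_closure ⟨a₁, h₁, a₂, h₂, rfl⟩)

theorem gen_sub_sums {G : Type} [AddCommGroup G] {A : Set G} {x : G} (hx : x ∈ Gen A) :
    ∃ m, x ∈ Sums A m := by
  unfold Gen at hx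
  induction hx using AddSubgroup.closure_induction with
  | mem x hx =>
    obtain ⟨a₁, h₁, a₂, h₂, rfl⟩ := hx
    exact ⟨1, 0, rfl, a₁, h₁, a₂, h₂, by rw [zero_add]⟩
  | zero => exact ⟨0, rfl⟩
  | add x y _ _ hx hy =>
    obtain ⟨m, hm⟩ := hx
    obtain ⟨n, hn⟩ := hy
    exact ⟨m + n, sums_add hm hn⟩
  | neg x _ hx =>
    obtain ⟨m, hm⟩ := hx
    exact ⟨m, sums_neg hm⟩

/-- If finitely many translates of the set of the sums of `k` differences cover the subgroup
generated by the differences, then this subgroup consists of the sums of `m` differences. -/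
theorem gen_eq_sums {G : Type} [AddCommGroup G] {A : Set G} (hA : A.Nonempty) (k : ℕ)
    (T : Set G) (hT : T.Finite) (hcov : ∀ x ∈ Gen A, ∃ b ∈ Sums A k, ∃ t ∈ T, x = b + t) :
    ∃ m, (Gen A : Set G) = Sums A m := by
  have h1 : ∀ S : Set G, S.Finite → S ⊆ Gen A → ∃ M, S ⊆ Sums A M := by
    intro S hS
    induction S, hS using Set.Finite.induction_on with
    | empty => exact fun _ => ⟨0, Set.empty_subset _⟩
    | @insert a S _ _ ih =>
      intro hsub
      obtain ⟨M, hM⟩ := ih (fun x hx => hsub (Set.mem_insert_of_mem _ hx))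
      obtain ⟨N, hN⟩ := gen_sub_sums (hsub (Set.mem_insert _ _))
      refine ⟨max M N, ?_⟩
      intro x hx
      rcases hx with rfl | hx
      · exact sums_mono hA (le_max_right _ _) hN
      · exact sums_mono hA (le_max_left _ _) (hM hx)
  obtain ⟨M, hM⟩ := h1 (T ∩ Gen A) (hT.subset Set.inter_subset_left) Set.inter_subset_right
  refine ⟨k + M, Set.Subset.antisymm ?_ (fun x hx => sums_sub_gen hx)⟩
  intro x hx
  obtain ⟨b, hb, t, ht, rfl⟩ := hcov x hx
  have htg : t ∈ Gen A := by
    have := sub_mem hx (sums_sub_gen hb)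
    simpa using this
  exact sums_add hb (hM ⟨ht, htg⟩)

/-- The set `D` of integers has positive upper Banach density: for some `m > 0` there are
arbitrarily long intervals in which a proportion of at least `1 / m` belongs to `D`. -/
def UpperDense (D : Set ℤ) : Prop :=
  ∃ m : ℕ, 0 < m ∧ ∀ N₀ : ℕ, ∃ N : ℕ, N₀ ≤ N ∧ ∃ a : ℤ,
    N ≤ m * (D ∩ Set.Ico a (a + N)).ncard

/-- Finitely many translates of the difference set cover the integers. -/
theorem UpperDense.cover {D : Set ℤ} (hD : UpperDense D) :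
    ∃ T : Set ℤ, T.Finite ∧ ∀ n : ℤ, ∃ x ∈ D, ∃ y ∈ D, ∃ t ∈ T, n = x - y + t := by
  classical
  obtain ⟨m, hm, hD⟩ := hD
  -- disjoint translates
  let Q : Finset ℤ → Prop := fun F => ∀ s ∈ F, ∀ t ∈ F, ∀ x ∈ D, ∀ y ∈ D, x + s = y + t → s = t
  have hbound : ∀ F : Finset ℤ, Q F → F.card ≤ m := by
    intro F hF
    by_contra hcon
    push Not at hcon
    obtain ⟨R, hR⟩ : ∃ R : ℕ, ∀ t ∈ F, |t| ≤ (R : ℤ) := by
      refine ⟨∑ t ∈ F, t.natAbs, fun t ht => ?_⟩
      have : t.natAbs ≤ ∑ t ∈ F, t.natAbs :=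
        Finset.single_le_sum (f := fun t : ℤ => t.natAbs) (fun _ _ => Nat.zero_le _) ht
      rw [Int.abs_eq_natAbs]
      exact_mod_cast this
    obtain ⟨N, hN, a, hc⟩ := hD (2 * R * m + 1)
    have hfin : (D ∩ Set.Ico a (a + N)).Finite := (Set.finite_Ico _ _).subset Set.inter_subset_right
    obtain ⟨E, hE⟩ : ∃ E : Finset ℤ, (E : Set ℤ) = D ∩ Set.Ico a (a + N) :=
      ⟨hfin.toFinset, hfin.coe_toFinset⟩
    have hEc : (D ∩ Set.Ico a (a + N)).ncard = E.card := by
      rw [← hE, Set.ncard_coe_finset]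
    rw [hEc] at hc
    have hmem : ∀ x ∈ E, x ∈ D ∧ a ≤ x ∧ x < a + N := by
      intro x hx
      have : x ∈ (E : Set ℤ) := hx
      rw [hE] at this
      exact ⟨this.1, this.2.1, this.2.2⟩
    have hinj : (F ×ˢ E).card ≤ (Finset.Ico (a - R) (a + N + R)).card := by
      apply Finset.card_le_card_of_injOn (fun p => p.1 + p.2)
      · intro p hp
        rw [Finset.mem_coe, Finset.mem_product] at hp
        have h1 := hR p.1 hp.1
        rw [abs_le] at h1
        have h2 := hmem p.2 hp.2
        simp only [Finset.coe_Ico, Set.mem_Ico]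
        constructor <;> omega
      · intro p hp q hq hpq
        rw [Finset.mem_coe, Finset.mem_product] at hp hq
        have hpq' : p.1 + p.2 = q.1 + q.2 := hpq
        have h1 : p.1 = q.1 := hF p.1 hp.1 q.1 hq.1 p.2 (hmem _ hp.2).1 q.2 (hmem _ hq.2).1
          (by rw [add_comm, hpq', add_comm])
        have h2 : p.2 = q.2 := by omega
        exact Prod.ext h1 h2
    rw [Finset.card_product, Int.card_Ico] at hinj
    have e1 : (a + N + R - (a - R)).toNat = N + 2 * R := by omega
    rw [e1] at hinj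
    have h3 : (m + 1) * E.card ≤ N + 2 * R := le_trans (Nat.mul_le_mul_right _ hcon) hinj
    have h4 : E.card ≤ 2 * R := by nlinarith
    have h5 : N ≤ m * (2 * R) := le_trans hc (Nat.mul_le_mul_left _ h4)
    nlinarith
  have hne : D.Nonempty := by
    obtain ⟨N, hN, a, hc⟩ := hD 1
    by_contra hcon
    rw [Set.not_nonempty_iff_eq_empty] at hcon
    rw [hcon, Set.empty_inter, Set.ncard_empty] at hc
    omega
  -- a largest family
  let S : Set ℕ := {c | ∃ F : Finset ℤ, Q F ∧ F.card = c}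
  have hSne : S.Nonempty := ⟨0, ∅, by intro s hs; simp at hs, rfl⟩
  have hSb : BddAbove S := ⟨m, by rintro c ⟨F, hF, rfl⟩; exact hbound F hF⟩
  obtain ⟨F, hF, hFc⟩ := Nat.sSup_mem hSne hSb
  refine ⟨F, F.finite_toSet, fun n => ?_⟩
  obtain ⟨d, hd⟩ := hne
  by_cases hn : n ∈ F
  · exact ⟨d, hd, d, hd, n, hn, by omega⟩
  · by_contra hcon
    push Not at hcon
    have hQ : Q (insert n F) := by
      intro s hs t ht x hx y hy hxy
      rw [Finset.mem_insert] at hs ht
      rcases hs with rfl | hs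
      · rcases ht with rfl | ht
        · rfl
        · exact absurd (by omega : s = y - x + t) (hcon y hy x hx t ht)
      · rcases ht with rfl | ht
        · exact absurd (by omega : t = x - y + s) (hcon x hx y hy s hs)
        · exact hF s hs t ht x hx y hy hxy
    have h1 : (insert n F).card ≤ sSup S := le_csSup hSb ⟨_, hQ, rfl⟩
    rw [Finset.card_insert_of_notMem hn, hFc] at h1
    omega

end Pool.Agent.EDQ18
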