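import Pool.Agent.EDQ18.Add
import Pool.Agent.EDQ18.Grp

set_option autoImplicit false

/-!
# Existentially definable sets and subgroups of rank one
-/

namespace Pool.Agent.EDQ18

open MvPolynomial WeierstrassCurve.Affine

open scoped Pointwise

/-- The affine points of `A` are the `(x, y)` for which a polynomial `P(x, y, z)` with rational
coefficients vanishes for some rational `z`. -/
def Definable (W : WeierstrassCurve ℚ) (A : Set W.toAffine.Point) : Prop :=
  ∃ m : ℕ, ∃ P : MvPolynomial (Fin 2 ⊕ Fin m) ℚ, ∀ x y : ℚ,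
    (∃ h : W.toAffine.Nonsingular x y, Point.some _ _ h ∈ A) ↔
      ∃ z : Fin m → ℚ, eval (Sum.elim ![x, y] z) P = 0

theorem definable_iff (W : WeierstrassCurve ℚ) (A : Set W.toAffine.Point) :
    Definable W A ↔ Ex (aff W A) := by
  constructor
  · rintro ⟨m, P, hP⟩
    refine ⟨Fin m, inferInstance, P, fun v => ?_⟩
    have hv : ![v 0, v 1] = v := by
      ext i
      fin_cases i <;> rfl
    have h := hP (v 0) (v 1)
    rw [hv] at h
    exact h
  · intro h
    obtain ⟨m, P, hP⟩ := h.toFin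
    exact ⟨m, P, fun x y => hP ![x, y]⟩

theorem definable_sums (W : WeierstrassCurve ℚ) {A : Set W.toAffine.Point}
    (hA : Definable W A) (k : ℕ) : Definable W (Sums A k) := by
  rw [definable_iff] at hA ⊢
  induction k with
  | zero =>
    have e : aff W (Sums A 0) = ∅ := by
      rw [Set.eq_empty_iff_forall_notMem]
      rintro v ⟨h, h0⟩
      exact Point.some_ne_zero h h0
    rw [e]
    exact Ex.empty
  | succ k ih =>
    have e : Sums A (k + 1) = Sums A k + (A + -A) := by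
      ext x
      constructor
      · rintro ⟨b, hb, a₁, h₁, a₂, h₂, rfl⟩
        exact ⟨b, hb, a₁ - a₂, ⟨a₁, h₁, -a₂, by simpa using h₂, by
          change a₁ + -a₂ = a₁ - a₂
          rw [sub_eq_add_neg]⟩, rfl⟩
      · rintro ⟨b, hb, c, ⟨a₁, h₁, a₂, h₂, rfl⟩, rfl⟩
        refine ⟨b, hb, a₁, h₁, -a₂, h₂, ?_⟩
        change b + (a₁ + a₂) = b + (a₁ - -a₂)
        rw [sub_neg_eq_add]
    rw [e]
    exact ex_add W ih (ex_add W hA (ex_neg W hA))

theorem definable_gen (W : WeierstrassCurve ℚ) {A : Set W.toAffine.Point}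
    (hA : Definable W A) (hne : A.Nonempty) (k : ℕ) (T : Set W.toAffine.Point) (hT : T.Finite)
    (hcov : ∀ x ∈ Gen A, ∃ b ∈ Sums A k, ∃ t ∈ T, x = b + t) :
    Definable W (Gen A : Set W.toAffine.Point) := by
  obtain ⟨m, hm⟩ := gen_eq_sums hne k T hT hcov
  rw [hm]
  exact definable_sums W hA m

theorem rank_gen {G : Type} [AddCommGroup G] (H K : AddSubgroup G) (hH : Module.rank ℤ H = 1)
    (hK : K ≤ H) (T : Set G) (hT : T.Finite) (hcov : ∀ x ∈ H, ∃ b ∈ K, ∃ t ∈ T, x = b + t) :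
    Module.rank ℤ K = 1 := by
  apply le_antisymm
  · rw [← hH]
    exact LinearMap.rank_le_of_injective (AddSubgroup.inclusion hK).toIntLinearMap
      (AddSubgroup.inclusion_injective hK)
  · rw [Cardinal.one_le_iff_ne_zero]
    intro h0
    rw [rank_eq_zero_iff] at h0
    have h1 : Module.rank ℤ H ≠ 0 := by
      rw [hH]
      exact one_ne_zero
    rw [Ne, rank_eq_zero_iff] at h1
    push Not at h1
    obtain ⟨x, hx⟩ := h1
    -- two multiples of `x` differ by an element of `K`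
    have hc : ∀ n : ℤ, ∃ t ∈ T, n • (x : G) - t ∈ K := by
      intro n
      obtain ⟨b, hb, t, ht, he⟩ := hcov (n • (x : G)) (H.zsmul_mem x.2 n)
      refine ⟨t, ht, ?_⟩
      rw [he, add_sub_cancel_right]
      exact hb
    choose f hf1 hf2 using hc
    obtain ⟨m, n, hmn, hfe⟩ : ∃ m n : ℤ, m ≠ n ∧ f m = f n := by
      by_contra hcon
      push Not at hcon
      have hinj : Function.Injective f := fun m n h => by
        by_contra hne
        exact hcon m n hne h
      exact (Set.infinite_range_of_injective hinj).mono (Set.range_subset_iff.2 hf1) hT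
    have h2 : (m - n) • (x : G) ∈ K := by
      have := K.sub_mem (hf2 m) (hf2 n)
      rw [hfe] at this
      rw [sub_smul]
      simpa using this
    obtain ⟨a, ha, hax⟩ := h0 ⟨_, h2⟩
    have h3 : (a * (m - n)) • x = 0 := by
      apply Subtype.ext
      have h4 : a • ((m - n) • (x : G)) = 0 := by
        have := congrArg Subtype.val hax
        simpa using this
      rw [mul_smul]
      simpa using h4
    exact hx _ (mul_ne_zero ha (sub_ne_zero.2 hmn)) h3

theorem main_one (W : WeierstrassCurve ℚ) :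
    (∃ H : AddSubgroup W.toAffine.Point,
        Module.rank ℤ H = 1 ∧ Definable W (H : Set W.toAffine.Point)) ↔
      ∃ (A T : Set W.toAffine.Point) (H : AddSubgroup W.toAffine.Point), Definable W A ∧
        T.Finite ∧ Module.rank ℤ H = 1 ∧ A ⊆ H ∧
        ∀ x ∈ H, ∃ a₁ ∈ A, ∃ a₂ ∈ A, ∃ t ∈ T, x = a₁ - a₂ + t := by
  constructor
  · rintro ⟨H, hH, hd⟩
    exact ⟨H, {0}, H, hd, Set.finite_singleton 0, hH, subset_rfl, fun x hx =>
      ⟨x, hx, 0, H.zero_mem, 0, rfl, by simp⟩⟩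
  · rintro ⟨A, T, H, hA, hT, hH, hAH, hcov⟩
    have hne : A.Nonempty := by
      obtain ⟨a, ha, _⟩ := hcov 0 H.zero_mem
      exact ⟨a, ha⟩
    have hK : Gen A ≤ H := by
      unfold Gen
      rw [AddSubgroup.closure_le]
      rintro x ⟨a₁, h₁, a₂, h₂, rfl⟩
      exact H.sub_mem (hAH h₁) (hAH h₂)
    refine ⟨Gen A, rank_gen H (Gen A) hH hK T hT ?_, definable_gen W hA hne 1 T hT ?_⟩
    · intro x hx
      obtain ⟨a₁, h₁, a₂, h₂, t, ht, he⟩ := hcov x hx
      exact ⟨a₁ - a₂, AddSubgroup.subset_closure ⟨a₁, h₁, a₂, h₂, rfl⟩, t, ht, he⟩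
    · intro x hx
      obtain ⟨a₁, h₁, a₂, h₂, t, ht, he⟩ := hcov x (hK hx)
      exact ⟨a₁ - a₂, ⟨0, rfl, a₁, h₁, a₂, h₂, by rw [zero_add]⟩, t, ht, he⟩

theorem gen_le {G : Type} [AddCommGroup G] {A : Set G} {H : AddSubgroup G}
    (h : ∀ a₁ ∈ A, ∀ a₂ ∈ A, a₁ - a₂ ∈ H) : Gen A ≤ H := by
  unfold Gen
  rw [AddSubgroup.closure_le]
  rintro x ⟨a₁, h₁, a₂, h₂, rfl⟩
  exact h a₁ h₁ a₂ h₂

theorem main_two (W : WeierstrassCurve ℚ) (P : W.toAffine.Point) (A : Set W.toAffine.Point)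
    (hA : Definable W A) (hAP : ∀ a₁ ∈ A, ∀ a₂ ∈ A, a₁ - a₂ ∈ AddSubgroup.zmultiples P)
    (k : ℕ) (hD : UpperDense {n : ℤ | n • P ∈ Sums A k}) :
    Definable W (Gen A : Set W.toAffine.Point) ∧
      ∃ d : ℤ, d ≠ 0 ∧ Gen A = AddSubgroup.zmultiples (d • P) := by
  have hgen : Gen A ≤ AddSubgroup.zmultiples P := gen_le hAP
  obtain ⟨T, hT, hcov⟩ := hD.cover
  constructor
  · rcases A.eq_empty_or_nonempty with rfl | hne
    · have e : (Gen (∅ : Set W.toAffine.Point) : Set W.toAffine.Point) = {0} := by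
        unfold Gen
        have : {x : W.toAffine.Point | ∃ a₁ ∈ (∅ : Set W.toAffine.Point),
            ∃ a₂ ∈ (∅ : Set W.toAffine.Point), x = a₁ - a₂} = ∅ := by
          ext x
          simp
        rw [this, AddSubgroup.closure_empty]
        rfl
      have h0 := definable_sums W hA 0
      rw [e]
      exact h0
    · refine definable_gen W hA hne (k + k) ((fun n : ℤ => n • P) '' T) (hT.image _) ?_
      intro x hx
      obtain ⟨n, rfl⟩ := AddSubgroup.mem_zmultiples_iff.1 (hgen hx)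
      obtain ⟨u, hu, v, hv, t, ht, rfl⟩ := hcov n
      refine ⟨u • P + -(v • P), sums_add hu (sums_neg hv), t • P, ⟨t, ht, rfl⟩, ?_⟩
      rw [add_zsmul, sub_zsmul]
  · -- the integers `n` with `n • P` in the group
    let I : AddSubgroup ℤ := (Gen A).comap (zmultiplesHom W.toAffine.Point P)
    have hI : ∀ n : ℤ, n ∈ I ↔ n • P ∈ Gen A := fun n => Iff.rfl
    obtain ⟨d, hd⟩ := Int.subgroup_cyclic I
    have hd' : ∀ n : ℤ, n ∈ I ↔ d ∣ n := by
      intro n
      rw [hd, AddSubgroup.mem_closure_singleton]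
      constructor
      · rintro ⟨m, rfl⟩
        exact ⟨m, by rw [smul_eq_mul, mul_comm]⟩
      · rintro ⟨m, rfl⟩
        exact ⟨m, by rw [smul_eq_mul, mul_comm]⟩
    refine ⟨d, ?_, ?_⟩
    · rintro rfl
      -- all elements would come from `0`
      obtain ⟨m, hm, hD'⟩ := hD
      obtain ⟨N, hN, a, hc⟩ := hD' (m + 1)
      have hsub : {n : ℤ | n • P ∈ Sums A k} ∩ Set.Ico a (a + N) ⊆ {0} := by
        rintro n ⟨hn, _⟩
        have := (hd' n).1 ((hI n).2 (sums_sub_gen hn))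
        exact zero_dvd_iff.1 this
      have h1 := Set.ncard_le_ncard hsub (Set.finite_singleton 0)
      rw [Set.ncard_singleton] at h1
      have h2 := le_trans hc (Nat.mul_le_mul_left m h1)
      omega
    · ext x
      constructor
      · intro hx
        obtain ⟨n, rfl⟩ := AddSubgroup.mem_zmultiples_iff.1 (hgen hx)
        obtain ⟨m, rfl⟩ := (hd' n).1 ((hI n).2 hx)
        rw [AddSubgroup.mem_zmultiples_iff]
        exact ⟨m, by rw [← mul_smul, mul_comm]⟩
      · intro hx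
        obtain ⟨m, rfl⟩ := AddSubgroup.mem_zmultiples_iff.1 hx
        rw [← mul_smul]
        exact (hI _).1 ((hd' _).2 ⟨m, mul_comm _ _⟩)

theorem main_three (W : WeierstrassCurve ℚ) (P : W.toAffine.Point) (A : Set W.toAffine.Point)
    (hA : Definable W A) (hAP : A ⊆ AddSubgroup.zmultiples P) (hsq : ∀ n : ℤ, n ^ 2 • P ∈ A) :
    Definable W (AddSubgroup.zmultiples P : Set W.toAffine.Point) := by
  have h0 : (0 : W.toAffine.Point) ∈ A := by
    have := hsq 0
    simpa using this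
  have h1 : P ∈ A := by
    have := hsq 1
    simpa using this
  have hdiff : ∀ a₁ ∈ A, ∀ a₂ ∈ A, a₁ - a₂ ∈ AddSubgroup.zmultiples P := fun a₁ h₁ a₂ h₂ =>
    (AddSubgroup.zmultiples P).sub_mem (hAP h₁) (hAP h₂)
  have hD : UpperDense {n : ℤ | n • P ∈ Sums A 4} := by
    refine ⟨1, one_pos, fun N₀ => ⟨N₀, le_rfl, 0, ?_⟩⟩
    have hsub : Set.Ico (0 : ℤ) (0 + N₀) ⊆ {n : ℤ | n • P ∈ Sums A 4} := by
      intro n hn
      obtain ⟨a, b, c, d, habcd⟩ := Nat.sum_four_squares n.toNat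
      have hn' : n = (a : ℤ) ^ 2 + (b : ℤ) ^ 2 + (c : ℤ) ^ 2 + (d : ℤ) ^ 2 := by
        have h2 : (n.toNat : ℤ) = n := Int.toNat_of_nonneg hn.1
        rw [← h2, ← habcd]
        push_cast
        ring
      refine ⟨_, ⟨_, ⟨_, ⟨0, rfl, (a : ℤ) ^ 2 • P, hsq a, 0, h0, rfl⟩, (b : ℤ) ^ 2 • P, hsq b, 0,
        h0, rfl⟩, (c : ℤ) ^ 2 • P, hsq c, 0, h0, rfl⟩, (d : ℤ) ^ 2 • P, hsq d, 0, h0, ?_⟩
      rw [hn']
      simp only [add_zsmul, sub_zero, zero_add]
    rw [Set.inter_eq_self_of_subset_right hsub, one_mul]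
    have e : (Set.Ico (0 : ℤ) (0 + N₀)) = ((Finset.Ico (0 : ℤ) (0 + N₀) : Finset ℤ) : Set ℤ) := by
      rw [Finset.coe_Ico]
    rw [e, Set.ncard_coe_finset, Int.card_Ico]
    omega
  obtain ⟨h2, -⟩ := main_two W P A hA hdiff 4 hD
  have e : Gen A = AddSubgroup.zmultiples P := by
    apply le_antisymm (gen_le hdiff)
    apply AddSubgroup.zmultiples_le_of_mem
    exact AddSubgroup.subset_closure ⟨P, h1, 0, h0, by rw [sub_zero]⟩
  rw [← e]
  exact h2

end Pool.Agent.EDQ18
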