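import Pool.Agent.EDQ18.Grp

set_option autoImplicit false

/-!
# Sets contained in finitely many lines
-/

namespace Pool.Agent.EDQ18

open scoped Pointwise

/-- A set of positive upper Banach density meets its translates by few multiples of `K` in a set
of positive upper Banach density. -/
theorem UpperDense.shift {D : Set ℤ} (hD : UpperDense D) (K : ℕ) (hK : 0 < K) :
    ∃ X : Set ℤ, X.Finite ∧ (∀ x ∈ X, (K : ℤ) ≤ |x|) ∧
      UpperDense {n : ℤ | n ∈ D ∧ ∃ x ∈ X, n - x ∈ D} := by
  classical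
  obtain ⟨m, hm, hD⟩ := hD
  refine ⟨(fun j : ℤ => j * K) '' {j : ℤ | j ≠ 0 ∧ |j| ≤ m}, ?_, ?_, ?_⟩
  · apply Set.Finite.image
    refine (Set.finite_Icc (-(m : ℤ)) m).subset ?_
    rintro j ⟨_, hj⟩
    rw [abs_le] at hj
    exact hj
  · rintro _ ⟨j, ⟨hj, _⟩, rfl⟩
    simp only [abs_mul, Nat.abs_cast]
    have : 1 ≤ |j| := Int.one_le_abs hj
    nlinarith
  · refine ⟨2 * m * (m + 1), by positivity, fun N₀ => ?_⟩
    obtain ⟨N, hN, a, hc⟩ := hD (N₀ + 2 * m * m * K)
    refine ⟨N, by omega, a, ?_⟩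
    set D1 : Set ℤ := {n : ℤ | n ∈ D ∧ ∃ x ∈ (fun j : ℤ => j * K) '' {j : ℤ | j ≠ 0 ∧ |j| ≤ m},
      n - x ∈ D} with hD1
    have hfI : (Set.Ico a (a + (N : ℤ))).Finite := Set.finite_Ico _ _
    have hf0 : (D ∩ Set.Ico a (a + N)).Finite := hfI.subset Set.inter_subset_right
    have hf1 : (D1 ∩ Set.Ico a (a + N)).Finite := hfI.subset Set.inter_subset_right
    have hf2 : ((D \ D1) ∩ Set.Ico a (a + N)).Finite := hfI.subset Set.inter_subset_right
    have hsplit : (D ∩ Set.Ico a (a + N)).ncard ≤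
        (D1 ∩ Set.Ico a (a + N)).ncard + ((D \ D1) ∩ Set.Ico a (a + N)).ncard := by
      refine le_trans (Set.ncard_le_ncard ?_ (hf1.union hf2)) (Set.ncard_union_le _ _)
      rintro x ⟨hx, hxI⟩
      by_cases h : x ∈ D1
      · exact Or.inl ⟨h, hxI⟩
      · exact Or.inr ⟨⟨hx, h⟩, hxI⟩
    have hdisj : (m + 1) * ((D \ D1) ∩ Set.Ico a (a + N)).ncard ≤ N + m * K := by
      set E := hf2.toFinset with hE
      have hEc : ((D \ D1) ∩ Set.Ico a (a + N)).ncard = E.card :=
        Set.ncard_eq_toFinset_card _ hf2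
      rw [hEc]
      have hmemE : ∀ x ∈ E, (x ∈ D ∧ x ∉ D1) ∧ a ≤ x ∧ x < a + N := by
        intro x hx
        rw [hE, Set.Finite.mem_toFinset] at hx
        exact ⟨hx.1, hx.2.1, hx.2.2⟩
      have hinj : (Finset.range (m + 1) ×ˢ E).card ≤ (Finset.Ico a (a + N + m * K)).card := by
        apply Finset.card_le_card_of_injOn (fun p => (p.1 : ℤ) * K + p.2)
        · intro p hp
          rw [Finset.mem_coe, Finset.mem_product, Finset.mem_range] at hp
          have h2 := hmemE p.2 hp.2
          simp only [Finset.coe_Ico, Set.mem_Ico]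
          have h3 : (p.1 : ℤ) ≤ m := by omega
          have h4 : (0 : ℤ) ≤ p.1 := by omega
          constructor <;> nlinarith [h2.2.1, h2.2.2]
        · intro p hp q hq hpq
          rw [Finset.mem_coe, Finset.mem_product, Finset.mem_range] at hp hq
          have hpq' : (p.1 : ℤ) * K + p.2 = q.1 * K + q.2 := hpq
          have h1 : p.1 = q.1 := by
            by_contra hne
            apply (hmemE p.2 hp.2).1.2
            refine ⟨(hmemE p.2 hp.2).1.1, _, ⟨(q.1 : ℤ) - p.1, ⟨?_, ?_⟩, rfl⟩, ?_⟩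
            · omega
            · rw [abs_le]
              constructor <;> omega
            · have e : p.2 - ((q.1 : ℤ) - p.1) * K = q.2 := by linarith
              simp only [e]
              exact (hmemE q.2 hq.2).1.1
          refine Prod.ext h1 ?_
          rw [h1] at hpq'
          linarith
      rw [Finset.card_product, Finset.card_range, Int.card_Ico] at hinj
      have e1 : (a + N + m * K - a).toNat = N + m * K := by
        have : a + N + m * K - a = ((N + m * K : ℕ) : ℤ) := by
          push_cast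
          ring
        rw [this, Int.toNat_natCast]
      rw [e1] at hinj
      exact hinj
    -- the arithmetic
    set x := (D ∩ Set.Ico a (a + (N : ℤ))).ncard
    set y := (D1 ∩ Set.Ico a (a + (N : ℤ))).ncard
    set z := ((D \ D1) ∩ Set.Ico a (a + (N : ℤ))).ncard
    have h1 : (m + 1) * N ≤ m * ((m + 1) * y) + m * (N + m * K) := by
      calc (m + 1) * N ≤ (m + 1) * (m * x) := Nat.mul_le_mul_left _ hc
        _ ≤ (m + 1) * (m * (y + z)) :=
          Nat.mul_le_mul_left _ (Nat.mul_le_mul_left _ hsplit)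
        _ = m * ((m + 1) * y) + m * ((m + 1) * z) := by ring
        _ ≤ _ := Nat.add_le_add_left (Nat.mul_le_mul_left _ hdisj) _
    have h2 : N ≤ m * ((m + 1) * y) + m * (m * K) := by nlinarith
    have h3 : 2 * (m * (m * K)) ≤ N := by nlinarith
    nlinarith

end Pool.Agent.EDQ18
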