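import Pool.Agent.EDQ18.Tfae

set_option autoImplicit false

/-!
# Thin or a subgroup
-/

namespace Pool.Agent.EDQ18

open WeierstrassCurve.Affine

theorem rank_zmultiples {G : Type} [AddCommGroup G] (x : G) (hx : ∀ n : ℤ, n • x = 0 → n = 0) :
    Module.rank ℤ (AddSubgroup.zmultiples x) = 1 := by
  apply le_antisymm
  · let φ : ℤ →ₗ[ℤ] AddSubgroup.zmultiples x :=
      ((zmultiplesHom (AddSubgroup.zmultiples x))
        ⟨x, AddSubgroup.mem_zmultiples x⟩).toIntLinearMap
    have hφ : Function.Surjective φ := by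
      rintro ⟨y, hy⟩
      obtain ⟨n, rfl⟩ := AddSubgroup.mem_zmultiples_iff.1 hy
      exact ⟨n, Subtype.ext rfl⟩
    have h := LinearMap.rank_le_of_surjective φ hφ
    rwa [Module.rank_self] at h
  · rw [Cardinal.one_le_iff_ne_zero]
    intro h0
    rw [rank_eq_zero_iff] at h0
    obtain ⟨a, ha, hax⟩ := h0 ⟨x, AddSubgroup.mem_zmultiples x⟩
    apply ha
    apply hx
    have := congrArg Subtype.val hax
    simpa using this

/-- The group has a finitely generated existentially definable subgroup of rank one. -/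
def HasLine (W : WeierstrassCurve ℚ) : Prop :=
  ∃ H : AddSubgroup W.toAffine.Point, H.FG ∧ Module.rank ℤ H = 1 ∧
    Definable W (H : Set W.toAffine.Point)

/-- Some existentially definable set in a coset `Q + ℤ P`, `P` of infinite order, is not thin. -/
def HasThick (W : WeierstrassCurve ℚ) : Prop :=
  ∃ (P Q : W.toAffine.Point) (A : Set W.toAffine.Point), (∀ n : ℤ, n • P = 0 → n = 0) ∧
    Definable W A ∧ (∀ a ∈ A, a - Q ∈ AddSubgroup.zmultiples P) ∧
    ∃ k : ℕ, UpperDense {n : ℤ | n • P ∈ Sums A k}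

/-- Some existentially definable set in a coset `Q + ℤ P`, `P` of infinite order, contains the
points `Q + f(n) P` for a nonconstant polynomial `f`. -/
def HasPoly (W : WeierstrassCurve ℚ) : Prop :=
  ∃ (P Q : W.toAffine.Point) (A : Set W.toAffine.Point) (f : Polynomial ℤ),
    (∀ n : ℤ, n • P = 0 → n = 0) ∧ Definable W A ∧
    (∀ a ∈ A, a - Q ∈ AddSubgroup.zmultiples P) ∧ 0 < f.natDegree ∧
    ∀ n : ℕ, Q + f.eval (n : ℤ) • P ∈ A

theorem thick_line (W : WeierstrassCurve ℚ) (h : HasThick W) : HasLine W := by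
  obtain ⟨P, Q, A, hP, hA, hAP, k, hD⟩ := h
  have hdiff : ∀ a₁ ∈ A, ∀ a₂ ∈ A, a₁ - a₂ ∈ AddSubgroup.zmultiples P := by
    intro a₁ h₁ a₂ h₂
    have := AddSubgroup.sub_mem _ (hAP a₁ h₁) (hAP a₂ h₂)
    rwa [sub_sub_sub_cancel_right] at this
  obtain ⟨h1, d, hd, h2⟩ := main_two W P A hA hdiff k hD
  refine ⟨Gen A, ?_, ?_, h1⟩
  · rw [h2]
    exact ⟨{d • P}, by rw [Finset.coe_singleton, AddSubgroup.zmultiples_eq_closure]⟩
  · rw [h2]
    apply rank_zmultiples
    intro n hn
    rw [← mul_zsmul'] at hn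
    have := hP _ hn
    rcases mul_eq_zero.1 this with h | h
    · exact absurd h hd
    · exact h

theorem poly_thick (W : WeierstrassCurve ℚ) (h : HasPoly W) : HasThick W := by
  obtain ⟨P, Q, A, f, hP, hA, hAP, hf, hfA⟩ := h
  refine ⟨P, Q, A, hP, hA, hAP, ?_⟩
  have hdeg : (f - Polynomial.C (f.eval 0)).natDegree = (f.natDegree - 1) + 1 := by
    rw [Polynomial.natDegree_sub_C]
    omega
  obtain ⟨k', c, e, hc, hce⟩ := poly_linear (A := A) P (f.natDegree - 1)
    (f - Polynomial.C (f.eval 0)) hdeg 1 (by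
      intro n
      rw [Polynomial.eval_sub, Polynomial.eval_C, sub_zsmul]
      refine ⟨0, rfl, _, hfA n, _, hfA 0, ?_⟩
      rw [Nat.cast_zero]
      abel)
  exact ⟨k', upperDense_linear c e hc hce⟩

theorem line_poly (W : WeierstrassCurve ℚ) (h : HasLine W) : HasPoly W := by
  obtain ⟨H, hfg, hr, hd⟩ := h
  obtain ⟨P, hPH, hP, N, hN, hNH⟩ := exists_mul H hr hfg
  refine ⟨P, 0, {x | ∃ a ∈ (H : Set W.toAffine.Point), x = N • a},
    Polynomial.C (N : ℤ) * Polynomial.X, hP, definable_mul W hd N, ?_, ?_, ?_⟩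
  · rintro a ⟨x, hx, rfl⟩
    rw [sub_zero]
    exact hNH x hx
  · rw [Polynomial.natDegree_C_mul_X]
    · exact one_pos
    · exact_mod_cast hN.ne'
  · intro n
    refine ⟨n • P, H.nsmul_mem hPH n, ?_⟩
    rw [zero_add, Polynomial.eval_mul, Polynomial.eval_C, Polynomial.eval_X, mul_zsmul',
      natCast_zsmul, natCast_zsmul]
    rw [← mul_nsmul, ← mul_nsmul, mul_comm]

theorem tfae (W : WeierstrassCurve ℚ) : [HasLine W, HasThick W, HasPoly W].TFAE := by
  tfae_have 1 → 3 := line_poly W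
  tfae_have 3 → 2 := poly_thick W
  tfae_have 2 → 1 := thick_line W
  tfae_finish

end Pool.Agent.EDQ18
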