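import Pool.Agent.EDQ18.Reduce2

set_option autoImplicit false

/-!
# From finitely many lines to one: conclusion
-/

namespace Pool.Agent.EDQ18

open scoped Pointwise

variable {G : Type} [AddCommGroup G]

theorem split_mod {S : Set ℤ} {T : Set ℤ} (hS : ∀ n : ℤ, ∃ s ∈ S, ∃ t ∈ T, n = s + t) (N : ℕ)
    (hN : 0 < N) (n : ℤ) :
    ∃ s ∈ S, ∃ t ∈ (fun u : ℤ × ℤ => N * u.1 + u.2) '' (T ×ˢ Set.Ico 0 (N : ℤ)),
      n = N * s + t := by
  obtain ⟨s, hs, t, ht, hst⟩ := hS (n / N)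
  have hN' : (0 : ℤ) < N := by exact_mod_cast hN
  refine ⟨s, hs, _, ⟨(t, n % N), ⟨ht, Int.emod_nonneg n hN'.ne', Int.emod_lt_of_pos n hN'⟩, rfl⟩,
    ?_⟩
  have h1 := Int.mul_ediv_add_emod n N
  rw [hst] at h1
  have h2 : n = N * s + (N * t + n % N) := by
    rw [← add_assoc, ← mul_add]
    exact h1.symm
  exact h2

theorem step_two (𝒟 : Set G → Prop) (h𝒟 : Closed 𝒟) {A : Set G} (hA : 𝒟 A) {p q : G}
    (hcov : Cov p A) (hD : UpperDense {n : ℤ | q + n • p ∈ A}) :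
    ∃ B : Set G, 𝒟 B ∧ (0 : G) ∈ B ∧ (∀ b ∈ B, b ∈ AddSubgroup.zmultiples p) ∧
      ∃ T : Set ℤ, T.Finite ∧ ∀ n : ℤ, ∃ s : ℤ, s • p ∈ B ∧ ∃ t ∈ T, n = s + t := by
  obtain ⟨C, hC, hCA⟩ := hcov
  obtain ⟨T, hT, hT'⟩ := hD.cover
  set A2 : Set G := A + -A with hA2
  have hA2d : 𝒟 A2 := h𝒟.add _ _ hA (h𝒟.neg _ hA)
  set C2 : Set G := (fun c : G × G => c.1 - c.2) '' (C ×ˢ C) with hC2
  have hC2f : C2.Finite := (hC.prod hC).image _
  have hC2A : ∀ x ∈ A2, ∃ c ∈ C2, x - c ∈ AddSubgroup.zmultiples p := by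
    rintro x ⟨a, ha, b, hb, rfl⟩
    obtain ⟨c, hc, hac⟩ := hCA a ha
    obtain ⟨c', hc', hbc⟩ := hCA (-b) hb
    refine ⟨c - c', ⟨(c, c'), ⟨hc, hc'⟩, rfl⟩, ?_⟩
    have := AddSubgroup.sub_mem _ hac hbc
    have e : a + b - (c - c') = a - c - (-b - c') := by abel
    change a + b - (c - c') ∈ _
    rw [e]
    exact this
  have hS : ∀ n : ℤ, ∃ s ∈ {s : ℤ | s • p ∈ A2}, ∃ t ∈ T, n = s + t := by
    intro n
    obtain ⟨x, hx, y, hy, t, ht, hn⟩ := hT' n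
    refine ⟨x - y, ⟨q + x • p, hx, -(q + y • p), ?_, ?_⟩, t, ht, hn⟩
    · rw [Set.mem_neg, neg_neg]
      exact hy
    · change q + x • p + -(q + y • p) = (x - y) • p
      rw [sub_zsmul]
      abel
  have h0 : (0 : G) ∈ A2 := by
    obtain ⟨x, hx, _⟩ := hT' 0
    refine ⟨q + x • p, hx, -(q + x • p), ?_, ?_⟩
    · rw [Set.mem_neg, neg_neg]
      exact hx
    · exact add_neg_cancel _
  obtain ⟨N, hN, hN'⟩ := exists_scale (p := p) hC2f
  obtain ⟨M, hM, hM'⟩ := exists_common (p := p) hC2f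
  set T2 : Set ℤ :=
    insert 0 ((fun u : ℤ × ℤ => N * u.1 + u.2) '' (T ×ˢ Set.Ico 0 (N : ℤ))) with hT2
  have hT2f : T2.Finite := ((hT.prod (Set.finite_Ico _ _)).image _).insert 0
  set A3 : Set G := A2 ∩ ({x | ∃ a ∈ A2, x = N • a} + (fun s : ℤ => s • p) '' T2) with hA3
  have hA3d : 𝒟 A3 := h𝒟.inter _ _ hA2d (h𝒟.add _ _ (h𝒟.mul _ hA2d N) (h𝒟.fin _ (hT2f.image _)))
  have hA3s : ∀ s : ℤ, s • p ∈ A2 → s • p ∈ A3 := by
    intro s hs
    obtain ⟨s', hs', t, ht, hst⟩ := split_mod hS N hN s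
    refine ⟨hs, N • (s' • p), ⟨_, hs', rfl⟩, t • p, ⟨t, Set.mem_insert_of_mem _ ht, rfl⟩, ?_⟩
    change N • (s' • p) + t • p = s • p
    rw [hst, add_zsmul, mul_zsmul, natCast_zsmul]
  have hA30 : (0 : G) ∈ A3 := by
    have := hA3s 0 (by rw [zero_zsmul]; exact h0)
    rwa [zero_zsmul] at this
  refine ⟨{x | ∃ a ∈ A3, x = M • a}, h𝒟.mul _ hA3d M, ⟨0, hA30, (smul_zero _).symm⟩, ?_,
    (fun u : ℤ × ℤ => M * u.1 + u.2) '' (T ×ˢ Set.Ico 0 (M : ℤ)),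
    (hT.prod (Set.finite_Ico _ _)).image _, ?_⟩
  · rintro _ ⟨a, ⟨ha, _, ⟨b, hb, rfl⟩, _, ⟨t, _, rfl⟩, hab⟩, rfl⟩
    have hab' : a = N • b + t • p := hab.symm
    obtain ⟨c, hc, hac⟩ := hC2A a ha
    obtain ⟨c', hc', hbc⟩ := hC2A b hb
    have htp : t • p ∈ AddSubgroup.zmultiples p := ⟨t, rfl⟩
    have h1 : a - N • c' ∈ AddSubgroup.zmultiples p := by
      have e : a - N • c' = N • (b - c') + t • p := by
        rw [hab', smul_sub]
        abel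
      rw [e]
      exact AddSubgroup.add_mem _ (AddSubgroup.nsmul_mem _ hbc _) htp
    have h2 : c - N • c' ∈ AddSubgroup.zmultiples p := by
      have := AddSubgroup.sub_mem _ h1 hac
      have e : a - N • c' - (a - c) = c - N • c' := by abel
      rwa [e] at this
    have h3 := hM' c' hc' (hN' c hc c' hc' h2)
    have h4 : M • b ∈ AddSubgroup.zmultiples p := by
      have e : M • b = M • (b - c') + M • c' := by
        rw [smul_sub]
        abel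
      rw [e]
      exact AddSubgroup.add_mem _ (AddSubgroup.nsmul_mem _ hbc _) h3
    have e : M • a = N • (M • b) + M • (t • p) := by
      rw [hab', smul_add, smul_comm]
    rw [e]
    exact AddSubgroup.add_mem _ (AddSubgroup.nsmul_mem _ h4 _) (AddSubgroup.nsmul_mem _ htp _)
  · intro n
    obtain ⟨s, hs, t, ht, hst⟩ := split_mod hS M hM n
    refine ⟨M * s, ⟨s • p, hA3s s hs, ?_⟩, t, ht, hst⟩
    rw [mul_zsmul, natCast_zsmul]

/-- A set in finitely many lines which is dense in one of them yields a set in one line. -/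
theorem lines_reduce (𝒟 : Set G → Prop) (h𝒟 : Closed 𝒟) {A : Set G} (hA : 𝒟 A) {m : ℕ}
    (P Q : Fin m → G) (hAL : ∀ a ∈ A, ∃ i, a - Q i ∈ AddSubgroup.zmultiples (P i)) (i₀ : Fin m)
    (hP : ∀ n : ℤ, n • P i₀ = 0 → n = 0) (hD : UpperDense {n : ℤ | Q i₀ + n • P i₀ ∈ A}) :
    ∃ B : Set G, 𝒟 B ∧ (0 : G) ∈ B ∧ (∀ b ∈ B, b ∈ AddSubgroup.zmultiples (P i₀)) ∧
      ∃ T : Set ℤ, T.Finite ∧ ∀ n : ℤ, ∃ s : ℤ, s • P i₀ ∈ B ∧ ∃ t ∈ T, n = s + t := by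
  obtain ⟨X, hX, hcov, hD'⟩ := step_one P Q hAL i₀ hP hD
  exact step_two 𝒟 h𝒟 (h𝒟.inter _ _ hA (h𝒟.add _ _ hA (h𝒟.fin _ (hX.image _)))) hcov hD'

/-- Finitely many translates cover: positive upper Banach density. -/
theorem upperDense_of_cover {S T : Set ℤ} (hT : T.Finite)
    (h : ∀ n : ℤ, ∃ s ∈ S, ∃ t ∈ T, n = s + t) : UpperDense S := by
  classical
  have hTne : 0 < hT.toFinset.card := by
    obtain ⟨_, _, t, ht, _⟩ := h 0
    exact Finset.card_pos.2 ⟨t, hT.mem_toFinset.2 ht⟩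
  obtain ⟨R, hR⟩ := (hT.image Int.natAbs).bddAbove
  refine ⟨2 * hT.toFinset.card, by omega, fun N₀ => ?_⟩
  refine ⟨(N₀ + 2 * R) + 2 * R, by omega, -R, ?_⟩
  have hfin : (S ∩ Set.Ico (-(R : ℤ)) (-R + ((N₀ + 2 * R + 2 * R : ℕ) : ℤ))).Finite :=
    (Set.finite_Ico _ _).subset Set.inter_subset_right
  rw [Set.ncard_eq_toFinset_card _ hfin]
  have hcard : (Finset.Ico (0 : ℤ) (N₀ + 2 * R)).card ≤ (hfin.toFinset ×ˢ hT.toFinset).card := by
    have hsub : Finset.Ico (0 : ℤ) (N₀ + 2 * R) ⊆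
        (hfin.toFinset ×ˢ hT.toFinset).image (fun u => u.1 + u.2) := by
      intro n hn
      rw [Finset.mem_Ico] at hn
      obtain ⟨s, hs, t, ht, hst⟩ := h n
      have htR : t.natAbs ≤ R := hR ⟨t, ht, rfl⟩
      rw [Finset.mem_image]
      refine ⟨(s, t), ?_, hst.symm⟩
      rw [Finset.mem_product, Set.Finite.mem_toFinset, Set.Finite.mem_toFinset]
      refine ⟨⟨hs, ?_⟩, ht⟩
      rw [Set.mem_Ico]
      push_cast
      constructor <;> omega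
    exact le_trans (Finset.card_le_card hsub) Finset.card_image_le
  rw [Int.card_Ico, Finset.card_product] at hcard
  have e : ((N₀ : ℤ) + 2 * R - 0).toNat = N₀ + 2 * R := by omega
  rw [e] at hcard
  nlinarith

end Pool.Agent.EDQ18
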