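import Pool.Agent.EDQ18.Main
import Pool.Agent.EDQ18.Reduce3

set_option autoImplicit false

/-!
# Sets in finitely many lines and existentially definable subgroups
-/

namespace Pool.Agent.EDQ18

open WeierstrassCurve.Affine MvPolynomial

open scoped Pointwise

theorem definable_inter (W : WeierstrassCurve ℚ) {A B : Set W.toAffine.Point}
    (hA : Definable W A) (hB : Definable W B) : Definable W (A ∩ B) := by
  rw [definable_iff] at hA hB ⊢
  have h := hA.inter hB
  convert h using 1
  ext v
  constructor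
  · rintro ⟨h, h1, h2⟩
    exact ⟨⟨h, h1⟩, ⟨h, h2⟩⟩
  · rintro ⟨⟨h, h1⟩, ⟨_, h2⟩⟩
    exact ⟨h, h1, h2⟩

theorem definable_finite (W : WeierstrassCurve ℚ) {A : Set W.toAffine.Point} (hA : A.Finite) :
    Definable W A := by
  rw [definable_iff]
  induction A, hA using Set.Finite.induction_on with
  | empty =>
    have e : aff W (∅ : Set W.toAffine.Point) = ∅ := by
      rw [Set.eq_empty_iff_forall_notMem]
      rintro v ⟨_, h⟩
      exact h
    rw [e]
    exact Ex.empty
  | @insert a S _ _ ih =>
    have h1 : Ex (aff W {a}) := by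
      rcases a with _ | ⟨x, y, hxy⟩
      · have e : aff W ({Point.zero} : Set W.toAffine.Point) = ∅ := by
          rw [Set.eq_empty_iff_forall_notMem]
          rintro v ⟨h, h'⟩
          exact Point.some_ne_zero h h'
        rw [e]
        exact Ex.empty
      · have h := (Ex.poly (X 0 - C x : MvPolynomial (Fin 2) ℚ)).inter
          (Ex.poly (X 1 - C y : MvPolynomial (Fin 2) ℚ))
        convert h using 1
        ext v
        simp only [aff, Pt, Set.mem_ofPred_eq, Set.mem_inter_iff, Set.mem_singleton_iff,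
          Point.some.injEq, map_sub, eval_X, eval_C, sub_eq_zero]
        constructor
        · rintro ⟨_, h⟩
          exact h
        · rintro ⟨h1, h2⟩
          rw [h1, h2]
          exact ⟨hxy, rfl, rfl⟩
    have h := h1.union ih
    convert h using 1
    ext v
    constructor
    · rintro ⟨h, h1 | h2⟩
      · exact Or.inl ⟨h, h1⟩
      · exact Or.inr ⟨h, h2⟩
    · rintro (⟨h, h1⟩ | ⟨h, h2⟩)
      · exact ⟨h, Or.inl h1⟩
      · exact ⟨h, Or.inr h2⟩

theorem closed_definable (W : WeierstrassCurve ℚ) :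
    Closed (fun A : Set W.toAffine.Point => Definable W A) where
  inter _ _ hA hB := definable_inter W hA hB
  add A B hA hB := by
    rw [definable_iff] at hA hB ⊢
    exact ex_add W hA hB
  neg A hA := by
    rw [definable_iff] at hA ⊢
    exact ex_neg W hA
  mul _ hA N := definable_mul W hA N
  fin _ hA := definable_finite W hA

/-- Some existentially definable set lies in finitely many lines and is dense in one of them. -/
def HasLines (W : WeierstrassCurve ℚ) : Prop :=
  ∃ (m : ℕ) (P Q : Fin m → W.toAffine.Point) (A : Set W.toAffine.Point), Definable W A ∧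
    (∀ a ∈ A, ∃ i, a - Q i ∈ AddSubgroup.zmultiples (P i)) ∧
    ∃ i, (∀ n : ℤ, n • P i = 0 → n = 0) ∧ UpperDense {n : ℤ | Q i + n • P i ∈ A}

theorem lines_thick (W : WeierstrassCurve ℚ) (h : HasLines W) : HasThick W := by
  obtain ⟨m, P, Q, A, hA, hAL, i, hP, hD⟩ := h
  obtain ⟨B, hB, hB0, hBP, T, hT, hcov⟩ :=
    lines_reduce (fun A : Set W.toAffine.Point => Definable W A) (closed_definable W) hA P Q hAL i
      hP hD
  refine ⟨P i, 0, B, hP, hB, fun b hb => by rw [sub_zero]; exact hBP b hb, 1, ?_⟩
  refine UpperDense.mono (upperDense_of_cover (S := {s : ℤ | s • P i ∈ B}) hT hcov) ?_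
  intro n hn
  exact ⟨0, rfl, n • P i, hn, 0, hB0, by rw [sub_zero, zero_add]⟩

theorem line_lines (W : WeierstrassCurve ℚ) (h : HasLine W) : HasLines W := by
  obtain ⟨H, hfg, hr, hd⟩ := h
  obtain ⟨P, hPH, hP, N, hN, hNH⟩ := exists_mul H hr hfg
  refine ⟨1, fun _ => P, fun _ => 0, {x | ∃ a ∈ (H : Set W.toAffine.Point), x = N • a},
    definable_mul W hd N, ?_, 0, hP, ?_⟩
  · rintro a ⟨x, hx, rfl⟩
    refine ⟨0, ?_⟩
    rw [sub_zero]
    exact hNH x hx
  · apply upperDense_linear (N : ℤ) 0 (by exact_mod_cast hN.ne')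
    intro n
    refine ⟨n • P, H.nsmul_mem hPH n, ?_⟩
    rw [zero_add, add_zero, mul_zsmul, natCast_zsmul, natCast_zsmul]

theorem tfae4 (W : WeierstrassCurve ℚ) :
    [HasLine W, HasLines W, HasThick W, HasPoly W].TFAE := by
  tfae_have 1 → 2 := line_lines W
  tfae_have 2 → 3 := lines_thick W
  tfae_have 1 → 4 := line_poly W
  tfae_have 4 → 3 := poly_thick W
  tfae_have 3 → 1 := thick_line W
  tfae_finish

end Pool.Agent.EDQ18
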