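import Pool.Agent.EDQ18.Fin

set_option autoImplicit false

/-!
# The multiples of the points of an existentially definable set
-/

namespace Pool.Agent.EDQ18

open MvPolynomial WeierstrassCurve.Affine

variable (W : WeierstrassCurve ℚ)

theorem ex_r1 {σ : Type} (x₁ y₁ x₂ y₂ l x y : MvPolynomial σ ℚ) :
    Ex {u : σ → ℚ | Rel1 W (eval u x₁) (eval u y₁) (eval u x₂) (eval u y₂) (eval u l) (eval u x)
      (eval u y)} := by
  have h := (Ex.ne (x₁ - x₂)).inter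
    ((Ex.poly (l * (x₁ - x₂) - (y₁ - y₂))).inter
    ((Ex.poly (x - (l ^ 2 + C W.a₁ * l - C W.a₂ - x₁ - x₂))).inter
    (Ex.poly (y - (-(l * ((l ^ 2 + C W.a₁ * l - C W.a₂ - x₁ - x₂) - x₁) + y₁) -
      C W.a₁ * (l ^ 2 + C W.a₁ * l - C W.a₂ - x₁ - x₂) - C W.a₃)))))
  convert h using 1
  ext u
  simp only [Set.mem_ofPred_eq, Set.mem_inter_iff, Rel1, addX, addY, negAddY, negY,
    map_sub, map_mul, map_add, map_pow, map_neg, eval_C, sub_eq_zero, ne_eq]

theorem ex_r2 {σ : Type} (x₁ y₁ x₂ y₂ l x y : MvPolynomial σ ℚ) :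
    Ex {u : σ → ℚ | Rel2 W (eval u x₁) (eval u y₁) (eval u x₂) (eval u y₂) (eval u l) (eval u x)
      (eval u y)} := by
  have h := (Ex.poly (x₁ - x₂)).inter
    ((Ex.ne (y₁ - (-y₂ - C W.a₁ * x₂ - C W.a₃))).inter
    ((Ex.poly (l * (y₁ - (-y₁ - C W.a₁ * x₁ - C W.a₃)) -
      (3 * x₁ ^ 2 + 2 * C W.a₂ * x₁ + C W.a₄ - C W.a₁ * y₁))).inter
    ((Ex.poly (x - (l ^ 2 + C W.a₁ * l - C W.a₂ - x₁ - x₂))).inter
    (Ex.poly (y - (-(l * ((l ^ 2 + C W.a₁ * l - C W.a₂ - x₁ - x₂) - x₁) + y₁) -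
      C W.a₁ * (l ^ 2 + C W.a₁ * l - C W.a₂ - x₁ - x₂) - C W.a₃))))))
  convert h using 1
  ext u
  simp only [Set.mem_ofPred_eq, Set.mem_inter_iff, Rel2, addX, addY, negAddY, negY,
    map_sub, map_mul, map_add, map_pow, map_neg, eval_C, sub_eq_zero, ne_eq, map_ofNat]

theorem ex_ns {σ : Type} (x y : MvPolynomial σ ℚ) :
    Ex {u : σ → ℚ | W.toAffine.Nonsingular (eval u x) (eval u y)} := by
  have h := (Ex.poly (y ^ 2 + C W.a₁ * x * y + C W.a₃ * y -
      (x ^ 3 + C W.a₂ * x ^ 2 + C W.a₄ * x + C W.a₆))).inter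
    ((Ex.ne (C W.a₁ * y - (3 * x ^ 2 + 2 * C W.a₂ * x + C W.a₄))).union
      (Ex.ne (2 * y + C W.a₁ * x + C W.a₃)))
  convert h using 1
  ext u
  simp only [Set.mem_ofPred_eq, Set.mem_inter_iff, Set.mem_union, nonsingular_iff', equation_iff',
    map_sub, map_mul, map_add, map_pow, eval_C, ne_eq, map_ofNat]

theorem ex_eq {σ : Type} (x y : MvPolynomial σ ℚ) :
    Ex {u : σ → ℚ | eval u x = eval u y} := by
  have h := Ex.poly (x - y)
  convert h using 1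
  ext u
  simp only [Set.mem_ofPred_eq, map_sub, sub_eq_zero]

/-- The affine part of the graph of the multiplication by `N`. -/
def Gr (N : ℕ) : Set (Fin 4 → ℚ) :=
  {v | ∃ (h : W.toAffine.Nonsingular (v 0) (v 1)) (h' : W.toAffine.Nonsingular (v 2) (v 3)),
    N • Point.some _ _ h = Point.some _ _ h'}

/-- The affine points killed by `N`. -/
def Ker (N : ℕ) : Set (Fin 2 → ℚ) :=
  {v | ∃ h : W.toAffine.Nonsingular (v 0) (v 1), N • Point.some _ _ h = 0}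

theorem ex_gr_succ (N : ℕ) (hG : Ex (Gr W N)) (hK : Ex (Ker W N)) : Ex (Gr W (N + 1)) := by
  have h1 := (hK.subst (![X 0, X 1] : Fin 2 → MvPolynomial (Fin 4) ℚ)).inter
    ((ex_eq (X 0 : MvPolynomial (Fin 4) ℚ) (X 2)).inter
      (ex_eq (X 1 : MvPolynomial (Fin 4) ℚ) (X 3)))
  have h2 := ((hG.subst (![X (Sum.inl 0), X (Sum.inl 1), X (Sum.inr 0), X (Sum.inr 1)] :
    Fin 4 → MvPolynomial (Fin 4 ⊕ Fin 3) ℚ)).inter
    ((ex_r1 W (X (Sum.inr 0)) (X (Sum.inr 1)) (X (Sum.inl 0)) (X (Sum.inl 1)) (X (Sum.inr 2))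
      (X (Sum.inl 2)) (X (Sum.inl 3))).union
    (ex_r2 W (X (Sum.inr 0)) (X (Sum.inr 1)) (X (Sum.inl 0)) (X (Sum.inl 1)) (X (Sum.inr 2))
      (X (Sum.inl 2)) (X (Sum.inl 3))))).proj
  have h := h1.union h2
  convert h using 1
  ext v
  have e1 : ((fun i => eval v ((![X 0, X 1] : Fin 2 → MvPolynomial (Fin 4) ℚ) i)) ∈ Ker W N) ↔
      ∃ h : W.toAffine.Nonsingular (v 0) (v 1), N • Point.some _ _ h = 0 := by
    simp only [Ker, Set.mem_ofPred_eq, Matrix.cons_val_zero, Matrix.cons_val_one, eval_X]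
  have e2 : ∀ u : Fin 4 ⊕ Fin 3 → ℚ, ((fun i => eval u ((![X (Sum.inl 0), X (Sum.inl 1),
      X (Sum.inr 0), X (Sum.inr 1)] : Fin 4 → MvPolynomial (Fin 4 ⊕ Fin 3) ℚ) i)) ∈ Gr W N) ↔
      ∃ (h : W.toAffine.Nonsingular (u (Sum.inl 0)) (u (Sum.inl 1)))
        (h' : W.toAffine.Nonsingular (u (Sum.inr 0)) (u (Sum.inr 1))),
        N • Point.some _ _ h = Point.some _ _ h' := by
    intro u
    simp only [Gr, Set.mem_ofPred_eq, Matrix.cons_val_zero, Matrix.cons_val_one, Matrix.cons_val,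
      eval_X]
  constructor
  · rintro ⟨h, h', he⟩
    rw [succ_nsmul] at he
    rcases hN : N • Point.some _ _ h with _ | ⟨x, y, hxy⟩
    · left
      rw [hN, ← Point.zero_def, zero_add, Point.some.injEq] at he
      refine ⟨e1.2 ⟨h, hN⟩, ?_, ?_⟩
      · simp only [Set.mem_ofPred_eq, eval_X]
        exact he.1
      · simp only [Set.mem_ofPred_eq, eval_X]
        exact he.2
    · right
      rw [hN] at he
      obtain ⟨l, hl⟩ := (add_iff W hxy h (v 2) (v 3)).1 ⟨h', he⟩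
      refine ⟨![x, y, l], (e2 _).2 ⟨h, hxy, hN⟩, ?_⟩
      rcases hl with hl | hl
      · left
        simp only [Set.mem_ofPred_eq, eval_X]
        exact hl
      · right
        simp only [Set.mem_ofPred_eq, eval_X]
        exact hl
  · rintro (⟨hk, hx, hy⟩ | ⟨w, hg, hl⟩)
    · obtain ⟨h, hN⟩ := e1.1 hk
      simp only [Set.mem_ofPred_eq, eval_X] at hx hy
      have h' := h
      rw [hx, hy] at h'
      refine ⟨h, h', ?_⟩
      rw [succ_nsmul, hN, zero_add, Point.some.injEq]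
      exact ⟨hx, hy⟩
    · obtain ⟨h, h', hN⟩ := (e2 _).1 hg
      have hl' : Rel1 W (w 0) (w 1) (v 0) (v 1) (w 2) (v 2) (v 3) ∨
          Rel2 W (w 0) (w 1) (v 0) (v 1) (w 2) (v 2) (v 3) := by
        rcases hl with hl | hl
        · left
          simp only [Set.mem_ofPred_eq, eval_X] at hl
          exact hl
        · right
          simp only [Set.mem_ofPred_eq, eval_X] at hl
          exact hl
      obtain ⟨h'', he⟩ := (add_iff W h' h (v 2) (v 3)).2 ⟨w 2, hl'⟩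
      refine ⟨h, h'', ?_⟩
      rw [succ_nsmul]
      rw [← he, ← hN]
      rfl

theorem ex_ker_succ (N : ℕ) (hG : Ex (Gr W N)) : Ex (Ker W (N + 1)) := by
  have h := hG.subst (![X 0, X 1, X 0, -X 1 - C W.a₁ * X 0 - C W.a₃] :
    Fin 4 → MvPolynomial (Fin 2) ℚ)
  convert h using 1
  ext v
  have e : ((fun i => eval v ((![X 0, X 1, X 0, -X 1 - C W.a₁ * X 0 - C W.a₃] :
      Fin 4 → MvPolynomial (Fin 2) ℚ) i)) ∈ Gr W N) ↔
      ∃ (h : W.toAffine.Nonsingular (v 0) (v 1))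
        (h' : W.toAffine.Nonsingular (v 0) (W.toAffine.negY (v 0) (v 1))),
        N • Point.some _ _ h = Point.some _ _ h' := by
    simp only [Gr, Set.mem_ofPred_eq, negY, Matrix.cons_val_zero, Matrix.cons_val_one,
      Matrix.cons_val, map_sub, map_mul, map_neg, eval_X, eval_C]
  rw [Set.mem_ofPred_eq, e]
  constructor
  · rintro ⟨h, he⟩
    rw [succ_nsmul] at he
    refine ⟨h, (nonsingular_neg ..).mpr h, ?_⟩
    rw [← Point.neg_some h]
    exact eq_neg_of_add_eq_zero_left he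
  · rintro ⟨h, h', he⟩
    refine ⟨h, ?_⟩
    rw [succ_nsmul, he, ← Point.neg_some h, neg_add_cancel]

theorem ex_gr : ∀ N : ℕ, Ex (Gr W N) ∧ Ex (Ker W N) := by
  intro N
  induction N with
  | zero =>
    constructor
    · have e : Gr W 0 = ∅ := by
        rw [Set.eq_empty_iff_forall_notMem]
        rintro v ⟨h, h', he⟩
        rw [zero_nsmul] at he
        exact Point.some_ne_zero h' he.symm
      rw [e]
      exact Ex.empty
    · have h := ex_ns W (X 0 : MvPolynomial (Fin 2) ℚ) (X 1)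
      convert h using 1
      ext v
      simp only [Ker, Set.mem_ofPred_eq, zero_nsmul, eval_X]
      exact ⟨fun h => h.1, fun h => ⟨h, trivial⟩⟩
  | succ N ih => exact ⟨ex_gr_succ W N ih.1 ih.2, ex_ker_succ W N ih.1⟩

theorem definable_mul {A : Set W.toAffine.Point} (hA : Definable W A) (N : ℕ) :
    Definable W {x | ∃ a ∈ A, x = N • a} := by
  rw [definable_iff] at hA ⊢
  have h := ((hA.subst (![X (Sum.inr 0), X (Sum.inr 1)] :
    Fin 2 → MvPolynomial (Fin 2 ⊕ Fin 2) ℚ)).inter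
    ((ex_gr W N).1.subst (![X (Sum.inr 0), X (Sum.inr 1), X (Sum.inl 0), X (Sum.inl 1)] :
    Fin 4 → MvPolynomial (Fin 2 ⊕ Fin 2) ℚ))).proj
  convert h using 1
  ext v
  have e1 : ∀ u : Fin 2 ⊕ Fin 2 → ℚ, ((fun i => eval u ((![X (Sum.inr 0), X (Sum.inr 1)] :
      Fin 2 → MvPolynomial (Fin 2 ⊕ Fin 2) ℚ) i)) ∈ aff W A) ↔
      Pt W A (u (Sum.inr 0)) (u (Sum.inr 1)) := by
    intro u
    simp only [aff, Set.mem_ofPred_eq, Matrix.cons_val_zero, Matrix.cons_val_one, eval_X]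
  have e2 : ∀ u : Fin 2 ⊕ Fin 2 → ℚ, ((fun i => eval u ((![X (Sum.inr 0), X (Sum.inr 1),
      X (Sum.inl 0), X (Sum.inl 1)] : Fin 4 → MvPolynomial (Fin 2 ⊕ Fin 2) ℚ) i)) ∈ Gr W N) ↔
      ∃ (h : W.toAffine.Nonsingular (u (Sum.inr 0)) (u (Sum.inr 1)))
        (h' : W.toAffine.Nonsingular (u (Sum.inl 0)) (u (Sum.inl 1))),
        N • Point.some _ _ h = Point.some _ _ h' := by
    intro u
    simp only [Gr, Set.mem_ofPred_eq, Matrix.cons_val_zero, Matrix.cons_val_one, Matrix.cons_val,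
      eval_X]
  constructor
  · rintro ⟨hv, a, ha, he⟩
    rcases a with _ | ⟨x, y, hxy⟩
    · rw [← Point.zero_def, nsmul_zero] at he
      exact absurd he (Point.some_ne_zero hv)
    · exact ⟨![x, y], (e1 _).2 ⟨hxy, ha⟩, (e2 _).2 ⟨hxy, hv, he.symm⟩⟩
  · rintro ⟨w, h1, h2⟩
    obtain ⟨hxy, ha⟩ := (e1 _).1 h1
    obtain ⟨hxy', hv, he⟩ := (e2 _).1 h2
    exact ⟨hv, _, ha, he.symm⟩

end Pool.Agent.EDQ18
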