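import Pool.Agent.EDQ18.Lines

set_option autoImplicit false

/-!
# From finitely many lines to one
-/

namespace Pool.Agent.EDQ18

open scoped Pointwise

variable {G : Type} [AddCommGroup G]

/-- Finitely many cosets of the multiples of `p` cover `S`. -/
def Cov (p : G) (S : Set G) : Prop :=
  ∃ C : Set G, C.Finite ∧ ∀ x ∈ S, ∃ c ∈ C, x - c ∈ AddSubgroup.zmultiples p

theorem Cov.mono {p : G} {S T : Set G} (h : Cov p T) (hST : S ⊆ T) : Cov p S := by
  obtain ⟨C, hC, h⟩ := h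
  exact ⟨C, hC, fun x hx => h x (hST hx)⟩

theorem Cov.iUnion {p : G} {ι : Type} {I : Set ι} (hI : I.Finite) {S : ι → Set G}
    (h : ∀ i ∈ I, Cov p (S i)) : Cov p (⋃ i ∈ I, S i) := by
  choose! C hC hC' using h
  refine ⟨⋃ i ∈ I, C i, hI.biUnion hC, ?_⟩
  intro x hx
  rw [Set.mem_iUnion₂] at hx
  obtain ⟨i, hi, hx⟩ := hx
  obtain ⟨c, hc, hxc⟩ := hC' i hi x hx
  exact ⟨c, Set.mem_biUnion hi hc, hxc⟩

theorem cov_subsingleton {p : G} {S : Set G} (h : S.Subsingleton) : Cov p S := by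
  refine ⟨S, h.finite, fun x hx => ⟨x, hx, ?_⟩⟩
  rw [sub_self]
  exact zero_mem _

theorem cov_parallel {p q r : G} (a : ℤ) (ha : a ≠ 0) (h : a • q ∈ AddSubgroup.zmultiples p) :
    Cov p {x | x - r ∈ AddSubgroup.zmultiples q} := by
  refine ⟨(fun j : ℤ => r + j • q) '' Set.Ico 0 |a|, (Set.finite_Ico _ _).image _, ?_⟩
  intro x hx
  obtain ⟨n, hn⟩ := AddSubgroup.mem_zmultiples_iff.1 hx
  refine ⟨r + (n % a) • q, ⟨n % a, ⟨Int.emod_nonneg n ha, Int.emod_lt_abs n ha⟩, rfl⟩, ?_⟩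
  have e : x - (r + (n % a) • q) = (n / a) • (a • q) := by
    have h1 : x = r + n • q := by
      rw [hn]
      abel
    rw [h1, add_sub_add_left_eq_sub, sub_eq_add_neg, ← sub_zsmul, ← mul_zsmul]
    congr 1
    have := Int.emod_add_mul_ediv n a
    linarith
  rw [e]
  exact AddSubgroup.zsmul_mem _ h _

/-- The bad shifts of a pair of lines. -/
theorem bad_subsingleton {p q q' r r' : G} (hp : ∀ n : ℤ, n • p = 0 → n = 0)
    (hq : ∀ a : ℤ, a • q ∈ AddSubgroup.zmultiples p → a = 0) :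
    {s : ℤ | ∃ x y : G, x ≠ y ∧ x - r ∈ AddSubgroup.zmultiples q ∧
      y - r ∈ AddSubgroup.zmultiples q ∧ x - s • p - r' ∈ AddSubgroup.zmultiples q' ∧
      y - s • p - r' ∈ AddSubgroup.zmultiples q'}.Subsingleton := by
  rintro s ⟨x, y, hxy, hx, hy, hx', hy'⟩ t ⟨u, v, _, hu, _, hu', _⟩
  obtain ⟨k, hk⟩ := AddSubgroup.mem_zmultiples_iff.1 (AddSubgroup.sub_mem _ hx hy)
  obtain ⟨l, hl⟩ := AddSubgroup.mem_zmultiples_iff.1 (AddSubgroup.sub_mem _ hx' hy')
  obtain ⟨i, hi⟩ := AddSubgroup.mem_zmultiples_iff.1 (AddSubgroup.sub_mem _ hx hu)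
  obtain ⟨j, hj⟩ := AddSubgroup.mem_zmultiples_iff.1 (AddSubgroup.sub_mem _ hx' hu')
  have h1 : k • q = x - y := by
    rw [hk]
    abel
  have h2 : l • q' = x - y := by
    rw [hl]
    abel
  have h3 : i • q = x - u := by
    rw [hi]
    abel
  have h4 : j • q' = x - u - (s - t) • p := by
    rw [hj, sub_zsmul]
    abel
  -- `l (s - t) p` is a multiple of `q`
  have h5 : (l * (s - t)) • p = (l * i - j * k) • q := by
    have e1 : (s - t) • p = i • q - j • q' := by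
      rw [h3, h4]
      abel
    have e2 : l • (j • q') = (j * k) • q := by
      rw [← mul_zsmul, mul_comm l j, mul_zsmul', mul_zsmul', ← mul_zsmul', ← mul_zsmul']
      have : (j * l) • q' = j • (l • q') := by rw [mul_zsmul]
      rw [this, h2, ← h1, ← mul_zsmul]
    rw [mul_zsmul, e1, zsmul_sub, e2, ← mul_zsmul, sub_eq_add_neg, ← sub_zsmul]
  have h6 : l * i - j * k = 0 := hq _ (by
    rw [← h5]
    exact ⟨_, rfl⟩)
  rw [h6, zero_zsmul] at h5
  have h7 := hp _ h5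
  rcases mul_eq_zero.1 h7 with h | h
  · exfalso
    rw [h, zero_zsmul] at h2
    exact hxy (sub_eq_zero.1 h2.symm)
  · linarith

end Pool.Agent.EDQ18
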