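import Pool.Agent.EDQ18.Reduce

set_option autoImplicit false

/-!
# From finitely many lines to one: the reduction
-/

namespace Pool.Agent.EDQ18

open scoped Pointwise

variable {G : Type} [AddCommGroup G]

theorem UpperDense.mono {D E : Set ℤ} (hD : UpperDense D) (h : D ⊆ E) : UpperDense E := by
  obtain ⟨m, hm, hD⟩ := hD
  refine ⟨m, hm, fun N₀ => ?_⟩
  obtain ⟨N, hN, a, hc⟩ := hD N₀
  refine ⟨N, hN, a, le_trans hc (Nat.mul_le_mul_left _ ?_)⟩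
  exact Set.ncard_le_ncard (Set.inter_subset_inter_left _ h)
    ((Set.finite_Ico _ _).subset Set.inter_subset_right)

theorem step_one {A : Set G} {m : ℕ} (P Q : Fin m → G)
    (hAL : ∀ a ∈ A, ∃ i, a - Q i ∈ AddSubgroup.zmultiples (P i)) (i₀ : Fin m)
    (hP : ∀ n : ℤ, n • P i₀ = 0 → n = 0) (hD : UpperDense {n : ℤ | Q i₀ + n • P i₀ ∈ A}) :
    ∃ X : Set ℤ, X.Finite ∧ Cov (P i₀) (A ∩ (A + (fun s : ℤ => s • P i₀) '' X)) ∧
      UpperDense {n : ℤ | Q i₀ + n • P i₀ ∈ A ∩ (A + (fun s : ℤ => s • P i₀) '' X)} := by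
  set p := P i₀ with hp
  let Bad : Fin m × Fin m → Set ℤ := fun ij =>
    {s : ℤ | ∃ x y : G, x ≠ y ∧ x - Q ij.1 ∈ AddSubgroup.zmultiples (P ij.1) ∧
      y - Q ij.1 ∈ AddSubgroup.zmultiples (P ij.1) ∧
      x - s • p - Q ij.2 ∈ AddSubgroup.zmultiples (P ij.2) ∧
      y - s • p - Q ij.2 ∈ AddSubgroup.zmultiples (P ij.2)}
  let NP : Fin m × Fin m → Prop := fun ij =>
    ∀ a : ℤ, a • P ij.1 ∈ AddSubgroup.zmultiples p → a = 0
  have hB : (⋃ ij ∈ {ij : Fin m × Fin m | NP ij}, Bad ij).Finite :=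
    Set.Finite.biUnion (Set.toFinite _) fun ij h => (bad_subsingleton hP h).finite
  obtain ⟨M, hM⟩ := (hB.image Int.natAbs).bddAbove
  obtain ⟨X, hX, hXK, hXD⟩ := hD.shift (M + 1) (Nat.succ_pos _)
  refine ⟨X, hX, ?_, ?_⟩
  · have hsub : A ∩ (A + (fun s : ℤ => s • p) '' X) ⊆
        ⋃ t ∈ (Set.univ : Set (Fin m × Fin m)) ×ˢ X,
          {x | x - Q t.1.1 ∈ AddSubgroup.zmultiples (P t.1.1) ∧
            x - t.2 • p - Q t.1.2 ∈ AddSubgroup.zmultiples (P t.1.2)} := by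
      rintro x ⟨hx, b, hb, _, ⟨s, hs, rfl⟩, rfl⟩
      obtain ⟨i, hi⟩ := hAL _ hx
      obtain ⟨j, hj⟩ := hAL _ hb
      rw [Set.mem_iUnion₂]
      refine ⟨((i, j), s), ⟨Set.mem_univ _, hs⟩, hi, ?_⟩
      change b + s • p - s • p - Q j ∈ _
      rw [add_sub_cancel_right]
      exact hj
    refine Cov.mono (Cov.iUnion ((Set.toFinite _).prod hX) ?_) hsub
    rintro ⟨⟨i, j⟩, s⟩ ⟨_, hs⟩
    by_cases hNP : NP (i, j)
    · apply cov_subsingleton
      rintro x ⟨hx, hx'⟩ y ⟨hy, hy'⟩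
      by_contra hne
      have hbad : s ∈ ⋃ ij ∈ {ij : Fin m × Fin m | NP ij}, Bad ij :=
        Set.mem_biUnion (show (i, j) ∈ {ij : Fin m × Fin m | NP ij} from hNP)
          ⟨x, y, hne, hx, hy, hx', hy'⟩
      have h1 : s.natAbs ≤ M := hM ⟨s, hbad, rfl⟩
      have h2 := hXK s hs
      push_cast at h2
      rw [Int.abs_eq_natAbs] at h2
      omega
    · have : ∃ a : ℤ, a • P i ∈ AddSubgroup.zmultiples p ∧ a ≠ 0 := by
        by_contra hcon
        push Not at hcon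
        exact hNP hcon
      obtain ⟨a, ha, ha0⟩ := this
      exact (cov_parallel a ha0 ha).mono fun x hx => hx.1
  · refine hXD.mono ?_
    rintro n ⟨hn, x, hx, hnx⟩
    refine ⟨hn, Q i₀ + (n - x) • p, hnx, x • p, ⟨x, hx, rfl⟩, ?_⟩
    change Q i₀ + (n - x) • p + x • p = Q i₀ + n • p
    rw [add_assoc, ← add_zsmul, sub_add_cancel]

/-- The classes of sets which the reduction uses. -/
structure Closed (𝒟 : Set G → Prop) : Prop where
  inter : ∀ A B, 𝒟 A → 𝒟 B → 𝒟 (A ∩ B)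
  add : ∀ A B, 𝒟 A → 𝒟 B → 𝒟 (A + B)
  neg : ∀ A, 𝒟 A → 𝒟 (-A)
  mul : ∀ A, 𝒟 A → ∀ N : ℕ, 𝒟 {x | ∃ a ∈ A, x = N • a}
  fin : ∀ A : Set G, A.Finite → 𝒟 A

theorem exists_scale {p : G} {C : Set G} (hC : C.Finite) :
    ∃ N : ℕ, 0 < N ∧ ∀ c ∈ C, ∀ c' ∈ C, c - N • c' ∈ AddSubgroup.zmultiples p →
      ∃ M : ℕ, 0 < M ∧ M • c' ∈ AddSubgroup.zmultiples p := by
  -- the bad `N` of a pair
  let Bad : G × G → Set ℕ := fun c => {N : ℕ | c.1 - N • c.2 ∈ AddSubgroup.zmultiples p ∧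
    ¬ ∃ M : ℕ, 0 < M ∧ M • c.2 ∈ AddSubgroup.zmultiples p}
  have hsub : ∀ c : G × G, (Bad c).Subsingleton := by
    have key : ∀ (c : G × G) (M N : ℕ), M < N → M ∈ Bad c → N ∈ Bad c → False := by
      rintro c M N hMN ⟨h1, h2⟩ ⟨h3, _⟩
      apply h2
      refine ⟨N - M, Nat.sub_pos_of_lt hMN, ?_⟩
      have := AddSubgroup.sub_mem _ h1 h3
      have e : c.1 - M • c.2 - (c.1 - N • c.2) = (N - M) • c.2 := by
        have h4 : N • c.2 = (N - M) • c.2 + M • c.2 := by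
          rw [← add_nsmul, Nat.sub_add_cancel hMN.le]
        rw [h4]
        abel
      rwa [e] at this
    rintro c M hM N hN
    rcases lt_trichotomy M N with h | h | h
    · exact (key c M N h hM hN).elim
    · exact h
    · exact (key c N M h hN hM).elim
  have hB : (⋃ c ∈ C ×ˢ C, Bad c).Finite :=
    Set.Finite.biUnion (hC.prod hC) fun c _ => (hsub c).finite
  obtain ⟨M, hM⟩ := hB.bddAbove
  refine ⟨M + 1, Nat.succ_pos _, ?_⟩
  intro c hc c' hc' h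
  by_contra hcon
  have hbad : M + 1 ∈ ⋃ c ∈ C ×ˢ C, Bad c :=
    Set.mem_biUnion (show (c, c') ∈ C ×ˢ C from ⟨hc, hc'⟩) ⟨h, hcon⟩
  have := hM hbad
  omega

theorem exists_common {p : G} {C : Set G} (hC : C.Finite) :
    ∃ M : ℕ, 0 < M ∧ ∀ c ∈ C, (∃ M' : ℕ, 0 < M' ∧ M' • c ∈ AddSubgroup.zmultiples p) →
      M • c ∈ AddSubgroup.zmultiples p := by
  classical
  induction C, hC using Set.Finite.induction_on with
  | empty => exact ⟨1, one_pos, fun c hc => absurd hc (Set.notMem_empty _)⟩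
  | @insert a S _ _ ih =>
    obtain ⟨M, hM, h⟩ := ih
    by_cases ha : ∃ M' : ℕ, 0 < M' ∧ M' • a ∈ AddSubgroup.zmultiples p
    · obtain ⟨M', hM', hMa⟩ := ha
      refine ⟨M * M', Nat.mul_pos hM hM', ?_⟩
      rintro c (rfl | hc) hc'
      · rw [mul_comm, mul_nsmul]
        exact AddSubgroup.nsmul_mem _ hMa _
      · rw [mul_nsmul]
        exact AddSubgroup.nsmul_mem _ (h c hc hc') _
    · refine ⟨M, hM, ?_⟩
      rintro c (rfl | hc) hc'
      · exact absurd hc' ha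
      · exact h c hc hc'

end Pool.Agent.EDQ18
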