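import Pool.Agent.EDQ18.Mul

set_option autoImplicit false

/-!
# The equivalences
-/

namespace Pool.Agent.EDQ18

open WeierstrassCurve.Affine

theorem diff_natDegree {d : ℕ} (f : Polynomial ℤ) (hf : f.natDegree = d + 1 + 1) :
    (f.comp (Polynomial.X + 1) - f).natDegree = d + 1 := by
  have hT : f.comp (Polynomial.X + 1) = Polynomial.taylor 1 f := by
    rw [Polynomial.taylor_apply, map_one]
  have hlead : f.coeff (d + 1 + 1) ≠ 0 := by
    have h := Polynomial.leadingCoeff_ne_zero.2 (show f ≠ 0 by
      rintro rfl
      simp at hf)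
    rwa [Polynomial.leadingCoeff, hf] at h
  rw [hT]
  apply Polynomial.natDegree_eq_of_le_of_coeff_ne_zero
  · rw [Polynomial.natDegree_le_iff_coeff_eq_zero]
    intro N hN
    rw [Polynomial.coeff_sub]
    rcases Nat.lt_or_ge (d + 1 + 1) N with h | h
    · rw [Polynomial.coeff_eq_zero_of_natDegree_lt, Polynomial.coeff_eq_zero_of_natDegree_lt,
        sub_zero]
      · rw [hf]
        exact h
      · rw [Polynomial.natDegree_taylor, hf]
        exact h
    · have hN' : N = f.natDegree := by omega
      rw [hN', Polynomial.coeff_taylor_natDegree, Polynomial.leadingCoeff, sub_self]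
  · rw [Polynomial.coeff_sub, Polynomial.taylor_coeff]
    have h1 : (Polynomial.hasseDeriv (d + 1) f).natDegree ≤ 1 := by
      refine le_trans (Polynomial.natDegree_hasseDeriv_le _ _) ?_
      rw [hf]
      omega
    rw [Polynomial.eval_eq_sum_range' (Nat.lt_succ_of_le h1)]
    simp only [Finset.sum_range_succ, Finset.sum_range_zero, zero_add, one_pow, mul_one,
      Polynomial.hasseDeriv_coeff]
    have h2 : (1 + (d + 1)).choose (d + 1) = d + 2 := by
      rw [add_comm 1, Nat.choose_succ_self_right]
    rw [h2, Nat.choose_self, Nat.cast_one, one_mul, add_comm 1 (d + 1)]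
    rw [add_sub_cancel_left]
    exact mul_ne_zero (by positivity) hlead

/-- Differences of polynomials: a nonconstant polynomial with values in the sums of `k`
differences yields a linear one. -/
theorem poly_linear {G : Type} [AddCommGroup G] {A : Set G} (P : G) :
    ∀ (d : ℕ) (f : Polynomial ℤ), f.natDegree = d + 1 → ∀ k : ℕ,
      (∀ n : ℕ, f.eval (n : ℤ) • P ∈ Sums A k) →
      ∃ (k' : ℕ) (c e : ℤ), c ≠ 0 ∧ ∀ n : ℕ, (c * n + e) • P ∈ Sums A k' := by
  intro d
  induction d with
  | zero =>
    intro f hf k hk
    refine ⟨k, f.coeff 1, f.coeff 0, ?_, ?_⟩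
    · have h := Polynomial.leadingCoeff_ne_zero.2 (show f ≠ 0 by
        rintro rfl
        simp at hf)
      rw [Polynomial.leadingCoeff, hf] at h
      simpa using h
    · intro n
      have h := hk n
      rw [Polynomial.eval_eq_sum_range, hf] at h
      simp only [Finset.sum_range_succ, Finset.sum_range_zero, zero_add, pow_zero, pow_one,
        mul_one] at h
      rw [add_comm]
      exact h
  | succ d ih =>
    intro f hf k hk
    have hg : (f.comp (Polynomial.X + 1) - f).natDegree = d + 1 := diff_natDegree f hf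
    refine ih (f.comp (Polynomial.X + 1) - f) hg (k + k) ?_
    intro n
    have e : (f.comp (Polynomial.X + 1) - f).eval (n : ℤ) =
        f.eval ((n + 1 : ℕ) : ℤ) - f.eval (n : ℤ) := by
      simp
    rw [e, sub_zsmul]
    exact sums_add (hk (n + 1)) (sums_neg (hk n))

/-- An infinite arithmetic progression has positive upper Banach density. -/
theorem upperDense_linear {D : Set ℤ} (c e : ℤ) (hc : c ≠ 0)
    (h : ∀ n : ℕ, c * n + e ∈ D) : UpperDense D := by
  refine ⟨c.natAbs, Int.natAbs_pos.2 hc, fun N₀ => ?_⟩
  -- the interval of length `|c| (N₀ + 1)` which contains `N₀ + 1` terms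
  refine ⟨c.natAbs * (N₀ + 1), ?_, (if 0 < c then e else e + c * N₀), ?_⟩
  · have : 1 ≤ c.natAbs := Int.natAbs_pos.2 hc
    nlinarith
  · apply Nat.mul_le_mul_left
    set a : ℤ := if 0 < c then e else e + c * N₀ with ha
    have hfin : (D ∩ Set.Ico a (a + (c.natAbs * (N₀ + 1) : ℕ))).Finite :=
      (Set.finite_Ico _ _).subset Set.inter_subset_right
    have hsub : ((Finset.range (N₀ + 1)).image (fun n : ℕ => c * n + e) : Finset ℤ) ⊆
        hfin.toFinset := by
      intro x hx
      rw [Finset.mem_image] at hx
      obtain ⟨n, hn, rfl⟩ := hx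
      rw [Finset.mem_range] at hn
      rw [Set.Finite.mem_toFinset]
      refine ⟨h n, ?_⟩
      rw [Set.mem_Ico]
      have hn' : (n : ℤ) ≤ N₀ := by omega
      have hn0 : (0 : ℤ) ≤ n := by omega
      rcases lt_or_gt_of_ne hc with hc' | hc'
      · rw [ha, if_neg (not_lt.2 hc'.le)]
        have e1 : ((c.natAbs * (N₀ + 1) : ℕ) : ℤ) = -c * (N₀ + 1) := by
          push_cast
          rw [abs_of_neg hc']
        rw [e1]
        constructor <;> nlinarith
      · rw [ha, if_pos hc']
        have e1 : ((c.natAbs * (N₀ + 1) : ℕ) : ℤ) = c * (N₀ + 1) := by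
          push_cast
          rw [abs_of_pos hc']
        rw [e1]
        constructor <;> nlinarith
    rw [Set.ncard_eq_toFinset_card _ hfin]
    refine le_trans ?_ (Finset.card_le_card hsub)
    rw [Finset.card_image_of_injective, Finset.card_range]
    intro x y hxy
    have : c * (x : ℤ) = c * y := by
      have := hxy
      simp only at this
      linarith
    exact_mod_cast mul_left_cancel₀ hc this

/-- A multiple of a finitely generated group of rank one is cyclic. -/
theorem exists_mul {G : Type} [AddCommGroup G] (H : AddSubgroup G) (hH : Module.rank ℤ H = 1)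
    (hfg : H.FG) : ∃ P ∈ H, (∀ n : ℤ, n • P = 0 → n = 0) ∧ ∃ N : ℕ, 0 < N ∧
      ∀ x ∈ H, N • x ∈ AddSubgroup.zmultiples P := by
  have h1 : Module.rank ℤ H ≠ 0 := by
    rw [hH]
    exact one_ne_zero
  rw [Ne, rank_eq_zero_iff] at h1
  push Not at h1
  obtain ⟨P, hP⟩ := h1
  have hP' : ∀ n : ℤ, n • (P : G) = 0 → n = 0 := by
    intro n hn
    by_contra hne
    exact hP n hne (Subtype.ext (by simpa using hn))
  refine ⟨P, P.2, hP', ?_⟩
  -- every element has a multiple in the cyclic group
  have hx : ∀ x : H, ∃ a : ℤ, a ≠ 0 ∧ a • (x : G) ∈ AddSubgroup.zmultiples (P : G) := by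
    intro x
    by_contra hcon
    push Not at hcon
    have hli : LinearIndependent ℤ ![P, x] := by
      rw [LinearIndependent.pair_iff]
      intro s t hst
      have hst' : s • (P : G) + t • (x : G) = 0 := by
        have := congrArg Subtype.val hst
        simpa using this
      have ht : t = 0 := by
        by_contra hne
        apply hcon t hne
        rw [AddSubgroup.mem_zmultiples_iff]
        refine ⟨-s, ?_⟩
        rw [neg_zsmul]
        exact (eq_neg_of_add_eq_zero_right hst').symm
      rw [ht, zero_zsmul, add_zero] at hst'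
      exact ⟨hP' s hst', ht⟩
    have h2 := hli.cardinal_le_rank
    rw [hH] at h2
    simp at h2
  obtain ⟨S, hS⟩ := hfg
  have hSH : ∀ s ∈ S, s ∈ H := fun s hs => by
    rw [← hS]
    exact AddSubgroup.subset_closure hs
  have hex : ∀ S' : Finset G, (∀ s ∈ S', s ∈ H) → ∃ N : ℕ, 0 < N ∧ ∀ s ∈ S',
      N • s ∈ AddSubgroup.zmultiples (P : G) := by
    classical
    intro S'
    induction S' using Finset.induction_on with
    | empty => exact fun _ => ⟨1, one_pos, by simp⟩
    | insert a S' _ ih =>
      intro hsub
      obtain ⟨N, hN, hNs⟩ := ih fun s hs => hsub s (Finset.mem_insert_of_mem hs)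
      obtain ⟨b, hb, hba⟩ := hx ⟨a, hsub a (Finset.mem_insert_self _ _)⟩
      refine ⟨b.natAbs * N, Nat.mul_pos (Int.natAbs_pos.2 hb) hN, ?_⟩
      intro s hs
      rcases Finset.mem_insert.1 hs with rfl | hs
      · rw [mul_comm, mul_nsmul']
        have hb' : b.natAbs • s ∈ AddSubgroup.zmultiples (P : G) := by
          rcases Int.natAbs_eq b with h | h
          · rw [h, natCast_zsmul] at hba
            exact hba
          · rw [h, neg_zsmul, natCast_zsmul] at hba
            exact (AddSubgroup.neg_mem_iff _).1 hba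
        exact AddSubgroup.nsmul_mem _ hb' _
      · rw [mul_nsmul']
        exact AddSubgroup.nsmul_mem _ (hNs s hs) _
  obtain ⟨N, hN, hNs⟩ := hex S hSH
  refine ⟨N, hN, ?_⟩
  intro x hx'
  rw [← hS] at hx'
  induction hx' using AddSubgroup.closure_induction with
  | mem x hx => exact hNs x hx
  | zero =>
    rw [nsmul_zero]
    exact zero_mem _
  | add x y _ _ hx hy =>
    rw [nsmul_add]
    exact add_mem hx hy
  | neg x _ hx =>
    rw [smul_neg]
    exact neg_mem hx

end Pool.Agent.EDQ18
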